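import Pool.Agent.P.MP_1672e2_an.Cb.Defs

/-! Entropies of the levels and counting, with colours. -/

set_option autoImplicit false

namespace Pool.Agent.P.MP_1672e2_an.Cq.Un

open MeasureTheory Set Filter Topology

lemma Adm.old {j : ℕ} {c : ℕ → ℕ} (h : Adm j c) : Cq.Adm j c := by
  obtain ⟨w, h⟩ := h
  exact fun s h0 hs => (h s h0 hs).1

lemma cl_swap (w : ℕ → Bool) (a : Ty) : cl w (a.map Prod.swap) = cl w a := by
  rcases a with _ | ⟨i, i'⟩
  · rfl
  · simp only [Option.map_some, Prod.swap, cl]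
    by_cases h : i = i'
    · subst h; rfl
    · rw [if_neg fun k => h k.1.symm, if_neg fun k => h k.1]

lemma Adm.rev {j : ℕ} {c : ℕ → ℕ} (h : Adm j c) : Adm j fun s => c (T j - s) := by
  obtain ⟨w, h⟩ := h
  refine ⟨w, fun s h0 h1 => ?_⟩
  have := h (T j - s) (by omega) (by omega)
  rwa [sk_symm h0 h1, bt_swap, cl_swap] at this

lemma be_pos {j : ℕ} (hj : 1 ≤ j) : 1 ≤ be j := by
  obtain ⟨i, rfl⟩ : ∃ i, j = i + 1 := ⟨j - 1, by omega⟩
  have a1 := be_succ i
  have a3 := T_le_m i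
  have a4 := m_le_T i
  have a5 := lt_m i
  omega

lemma bq_succ (j : ℕ) : bq (j + 1) + 10 * m j + (j + 15) = 10 * m (j + 1) := by
  have a1 := be_succ j
  have a2 := be_pos (j := j + 1) (by omega)
  unfold bq
  omega

lemma fnum_be_le (j : ℕ) : bq j ≤ 10 * m j := (Nat.sub_le _ _).trans (Cq.fnum_be_le j)

lemma bf_star (i : ℕ) : bf (some (i, i)) = bq i := by simp [bf, bt, bq]

/-- A free choice together with the prescribed parity is an allowed choice. -/
lemma cl_lt (w : ℕ → Bool) (a : Ty) {k : ℕ} (hk : k < 2 ^ bf a) :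
    2 * k + cl w a < 2 ^ bt a ∧ (2 * k + cl w a) % 2 = cl w a := by
  have h1 : cl w a ≤ 1 ∧ (bt a = 0 → cl w a = 0) := by
    rcases a with _ | ⟨i, i'⟩
    · exact ⟨Nat.zero_le _, fun _ => rfl⟩
    · simp only [cl]
      split_ifs with h
      · refine ⟨le_rfl, fun h2 => ?_⟩
        have h3 := be_pos h.2.1
        simp only [bt, if_pos h.1] at h2
        omega
      · exact ⟨Nat.zero_le _, fun _ => rfl⟩
  refine ⟨?_, by omega⟩
  unfold bf at hk
  rcases Nat.eq_zero_or_pos (bt a) with h0 | h0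
  · rw [h0] at hk ⊢
    have := h1.2 h0
    simp only [Nat.zero_sub, pow_zero] at hk ⊢
    omega
  · have : 2 ^ bt a = 2 * 2 ^ (bt a - 1) := by
      rw [← pow_succ']
      congr 1
      omega
    omega

lemma half_lt {a : Ty} {n : ℕ} (h : n < 2 ^ bt a) : n / 2 < 2 ^ bf a := by
  have : 2 ^ bt a ≤ 2 * 2 ^ bf a := by
    rw [← pow_succ']
    exact Nat.pow_le_pow_right (by norm_num) (by unfold bf; omega)
  omega

lemma fnum_point (j s : ℕ) :
    bf (sk (j + 1) s) + (if s = m (j + 1) then bq j else 0) =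
      (if s = 0 then bq (j + 1) else 0) +
        if s ∈ Finset.Ico (m (j + 1)) (T (j + 1) - m (j + 1)) then
          bf (sk j ((s - m (j + 1)) % T j)) else 0 := by
  have h1 := m_pos (j + 1)
  have h2 := m_le_T' j
  have h3 : (m (j + 1) - m (j + 1)) % T j = 0 := Nat.mod_eq_zero_of_dvd (gr_self j)
  have hb : ∀ i, bf (some (i, i)) = bq i := bf_star
  have hb1 : bf (some (j + 1, j)) = 0 := by simp [bf, bt]
  have hb2 : bf (some (j, j + 1)) = 0 := by simp [bf, bt]
  have hb0 : bf none = 0 := rfl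
  rw [sk]
  simp only [Finset.mem_Ico]
  by_cases a0 : s = 0
  · rw [if_pos a0, if_neg (by omega), if_pos a0, if_neg (by omega), hb]
  rw [if_neg a0, if_neg a0]
  by_cases a1 : s < m (j + 1)
  · rw [if_pos a1, if_neg (by omega), if_neg (by omega), hb0]
  rw [if_neg a1]
  by_cases a2 : s = m (j + 1)
  · rw [if_pos a2, if_pos a2, if_pos (by omega), hb1, a2, h3, sk_zero, hb]
  rw [if_neg a2, if_neg a2]
  by_cases a3 : s < T (j + 1) - m (j + 1)
  · rw [if_pos a3, if_pos (by omega), add_comm]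
  rw [if_neg a3, if_neg (show ¬ (m (j + 1) ≤ s ∧ s < T (j + 1) - m (j + 1)) by omega)]
  by_cases a4 : s = T (j + 1) - m (j + 1)
  · rw [if_pos a4, hb2]
  · rw [if_neg a4, hb0]

lemma FF_succ (j : ℕ) :
    FF (j + 1) * T j + bq j * T j + 2 * m (j + 1) * FF j = T (j + 1) * FF j + bq (j + 1) * T j := by
  have h1 := m_pos (j + 1)
  have h2 := m_le_T' j
  obtain ⟨k, hk⟩ := gr_mid j
  have e := Finset.sum_congr (rfl : Finset.range (T (j + 1)) = _) fun s _ => fnum_point j s
  rw [Finset.sum_add_distrib, Finset.sum_add_distrib, Finset.sum_ite_eq', Finset.sum_ite_eq',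
    if_pos (Finset.mem_range.2 (by omega)), if_pos (Finset.mem_range.2 (by omega)),
    Finset.sum_ite_mem] at e
  have e1 : Finset.range (T (j + 1)) ∩ Finset.Ico (m (j + 1)) (T (j + 1) - m (j + 1)) =
      Finset.Ico (m (j + 1)) (T (j + 1) - m (j + 1)) := by
    refine Finset.inter_eq_right.2 fun s hs => ?_
    rw [Finset.mem_Ico] at hs
    rw [Finset.mem_range]
    omega
  have e2 : ∑ s ∈ Finset.Ico (m (j + 1)) (T (j + 1) - m (j + 1)),
      bf (sk j ((s - m (j + 1)) % T j)) = k * FF j := by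
    rw [Finset.sum_Ico_eq_sum_range, hk, mul_comm (T j) k, FF,
      ← fnum_period (fun r => bf (sk j r)) (T j) k]
    refine Finset.sum_congr rfl fun r _ => ?_
    rw [Nat.add_sub_cancel_left]
  rw [e1, e2] at e
  have e3 : FF (j + 1) + bq j = bq (j + 1) + k * FF j := e
  have e4 : T (j + 1) = T j * k + 2 * m (j + 1) := by omega
  rw [e4, ← add_mul, e3]
  ring

lemma fnum_zero : FF 0 = 0 := by
  simp [FF, T, sk, bf, bt, be]

/-- The increment of the entropy. -/
lemma fnum_step (j : ℕ) : (FF (j + 1) : ℝ) / T (j + 1) = (FF j : ℝ) / T j +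
    ((bq (j + 1) : ℝ) - bq j - 2 * m (j + 1) * ((FF j : ℝ) / T j)) / T (j + 1) := by
  have h1 := fnum_T_cast j
  have h2 := fnum_T_cast (j + 1)
  have e : (FF (j + 1) : ℝ) * T j + bq j * T j + 2 * m (j + 1) * FF j =
      T (j + 1) * FF j + bq (j + 1) * T j := by exact_mod_cast FF_succ j
  field_simp
  linarith

lemma fnum_upper (j : ℕ) : (FF j : ℝ) / T j ≤ 5 / 2 * (1 - (1 / 2) ^ j) := by
  induction j with
  | zero => rw [fnum_zero]; simp
  | succ j ih =>
    have h1 := fnum_T_cast j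
    have h2 := fnum_T_cast (j + 1)
    have h3 : (bq (j + 1) : ℝ) ≤ 10 * m (j + 1) := by exact_mod_cast fnum_be_le (j + 1)
    have h4 : (0 : ℝ) ≤ bq j := Nat.cast_nonneg _
    have h5 : (0 : ℝ) ≤ 2 * m (j + 1) * ((FF j : ℝ) / T j) := by positivity
    have h6 : ((bq (j + 1) : ℝ) - bq j - 2 * m (j + 1) * ((FF j : ℝ) / T j)) / T (j + 1) ≤
        10 * ((m (j + 1) : ℝ) / T (j + 1)) := by
      rw [← mul_div_assoc 10]
      exact div_le_div_of_nonneg_right (by linarith) h2.le
    have h9 := fnum_m_div j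
    rw [fnum_step]
    have h7 : ((1 : ℝ) / 2) ^ (j + 3) = (1 / 2) ^ j / 8 := by ring
    have h8 : ((1 : ℝ) / 2) ^ (j + 1) = (1 / 2) ^ j / 2 := by ring
    linarith

lemma fnum_le (j : ℕ) : (FF j : ℝ) / T j ≤ 5 / 2 := by
  have h1 := fnum_upper j
  have h2 : (0 : ℝ) ≤ (1 / 2) ^ j := by positivity
  linarith

lemma FF_le (j : ℕ) : (FF j : ℝ) ≤ 5 / 2 * T j :=
  (div_le_iff₀ (fnum_T_cast j)).1 (fnum_le j)

lemma FF_one : 9 / 8 * (T 1 : ℝ) ≤ FF 1 := by
  have e : ∀ k, k = 0 + 1 →
      FF k * T 0 + bq 0 * T 0 + 2 * m k * FF 0 = T k * FF 0 + bq k * T 0 := by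
    rintro k rfl
    exact FF_succ 0
  have h0 : T 0 = 1 := rfl
  have h1 : T 1 = 523 := by rw [T, h0]; norm_num
  have h2 : m 0 = 1 := rfl
  have h3 : m 1 = 65 := by rw [m, h0]; norm_num
  have h4 : bq 0 = 0 := rfl
  have h5 : ∀ k, k = 0 + 1 → bq k + 10 * m 0 + (0 + 15) = 10 * m k := by
    rintro k rfl
    exact bq_succ 0
  have e' := e 1 rfl
  have h5' := h5 1 rfl
  rw [fnum_zero, h0, h4] at e'
  have h6 : FF 1 = 625 := by omega
  rw [h1, h6]
  norm_num

lemma FF_gain (j : ℕ) : (FF j : ℝ) / T j + (1 / 2) ^ (j + 1) ≤ (FF (j + 1) : ℝ) / T (j + 1) := by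
  have h2 := fnum_T_cast (j + 1)
  have h3 : 37 * m (j + 1) + 4 * bq j ≤ 4 * bq (j + 1) := by
    have a1 := bq_succ j
    have a2 := fnum_be_le j
    have a3 := T_le_m j
    have a4 := m_le_T j
    have a5 := lt_m j
    omega
  have h4 : 37 * (m (j + 1) : ℝ) + 4 * bq j ≤ 4 * bq (j + 1) := by exact_mod_cast h3
  have h5 : 2 * (m (j + 1) : ℝ) * ((FF j : ℝ) / T j) ≤ 2 * m (j + 1) * (5 / 2) :=
    mul_le_mul_of_nonneg_left (fnum_le j) (by positivity)
  have h6 : 17 / 4 * ((m (j + 1) : ℝ) / T (j + 1)) ≤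
      ((bq (j + 1) : ℝ) - bq j - 2 * m (j + 1) * ((FF j : ℝ) / T j)) / T (j + 1) := by
    rw [← mul_div_assoc]
    exact div_le_div_of_nonneg_right (by linarith) h2.le
  have h9 := fnum_m_div' j
  rw [fnum_step]
  have h7 : ((1 : ℝ) / 2) ^ (j + 3) = (1 / 2) ^ (j + 1) / 4 := by ring
  linarith

lemma fnum_bdd : BddAbove (range fun j => (FF j : ℝ) / T j) :=
  ⟨5 / 2, by rintro _ ⟨j, rfl⟩; exact fnum_le j⟩

lemma le_hh (j : ℕ) : Real.log 2 * ((FF j : ℝ) / T j) ≤ hh :=
  mul_le_mul_of_nonneg_left (le_ciSup fnum_bdd j) (Real.log_nonneg one_le_two)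

lemma fnum_one : (9 / 8 : ℝ) ≤ (FF 1 : ℝ) / T 1 :=
  (le_div_iff₀ (fnum_T_cast 1)).2 FF_one

lemma hh_pos : 0 < hh :=
  lt_of_lt_of_le (mul_pos (Real.log_pos one_lt_two) (lt_of_lt_of_le (by norm_num) fnum_one))
    (le_hh 1)

lemma pJ_gain (j : ℕ) : pJ j + (1 / 2) ^ (j + 2) ≤ pJ (j + 1) := by
  unfold pJ
  rw [if_neg (Nat.succ_ne_zero j)]
  by_cases h : j = 0
  · subst h
    have h1 := fnum_one
    rw [if_pos rfl, zero_add 1]
    have h2 : ((1 : ℝ) / 2) ^ (0 + 2) = 1 / 4 := by norm_num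
    have h3 : ((1 : ℝ) / 2) ^ (1 + 2) = 1 / 8 := by norm_num
    linarith
  · rw [if_neg h]
    have h1 := FF_gain j
    have h2 : ((1 : ℝ) / 2) ^ (j + 2) = (1 / 2) ^ (j + 1) / 2 := by ring
    have h3 : (0 : ℝ) ≤ (1 / 2) ^ (j + 1 + 2) := by positivity
    linarith

lemma fnum_sum (J : ℕ) :
    ∑ r ∈ Finset.Ico 1 (T J), (bf (sk J r) : ℝ) = (FF J : ℝ) - bq J := by
  have e : FF J = bq J + ∑ r ∈ Finset.Ico 1 (T J), bf (sk J r) := by
    rw [FF, Finset.range_eq_Ico, Finset.sum_eq_sum_Ico_succ_bot (T_pos J), sk_zero, bf_star]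
  rw [e]
  push_cast
  ring

lemma exists_level {c : ℝ} (h : c < hh) : ∃ J,
    c ≤ Real.log 2 * ((∑ r ∈ Finset.Ico 1 (T J), (bf (sk J r) : ℝ)) *
      ((1 - (1 / 2) ^ (J + 1)) / T J)) := by
  have hm : Monotone fun j => (FF j : ℝ) / T j := monotone_nat_of_le_succ fun j => by
    have h1 := FF_gain j
    have h2 : (0 : ℝ) ≤ (1 / 2) ^ (j + 1) := by positivity
    linarith
  have t1 := (tendsto_add_atTop_iff_nat 1).2 (tendsto_atTop_ciSup hm fnum_bdd)
  have t0 : Tendsto (fun j : ℕ => ((1 : ℝ) / 2) ^ j) atTop (𝓝 0) :=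
    tendsto_pow_atTop_nhds_zero_of_lt_one (by norm_num) (by norm_num)
  have t2 : Tendsto (fun j => (bq (j + 1) : ℝ) / T (j + 1)) atTop (𝓝 0) := by
    have u := ((tendsto_add_atTop_iff_nat 3).2 t0).const_mul 10
    rw [mul_zero] at u
    refine squeeze_zero (fun j => by positivity) (fun j => ?_) u
    have h3 : (bq (j + 1) : ℝ) ≤ 10 * m (j + 1) := by exact_mod_cast fnum_be_le (j + 1)
    refine le_trans ?_ (mul_le_mul_of_nonneg_left (fnum_m_div j) (by norm_num))
    rw [← mul_div_assoc]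
    exact div_le_div_of_nonneg_right h3 (fnum_T_cast _).le
  have t3 := ((t1.sub t2).mul (((tendsto_add_atTop_iff_nat 2).2 t0).const_sub 1)).const_mul
    (Real.log 2)
  rw [sub_zero, sub_zero, mul_one] at t3
  obtain ⟨j, hj⟩ := (t3.eventually (lt_mem_nhds h)).exists
  refine ⟨j + 1, hj.le.trans (le_of_eq ?_)⟩
  rw [fnum_sum]
  ring

/-- The blocks that start with a symbol of level `j`. -/
lemma blocks (j : ℕ) : ∃ B : Finset (Fin (T j) → ℕ × ℕ), B.card ≤ 2 ^ (j + 2) * 2 ^ FF j ∧
    ∀ y τ, Lang y → 1 ≤ j → (y τ).1 = j + 1 → win τ (T j) y ∈ B := by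
  classical
  refine ⟨Finset.univ.biUnion fun v : Fin j → Bool => Fintype.piFinset fun s : Fin (T j) =>
    if (s : ℕ) = 0 then (Finset.range (2 * 2 ^ be j)).image fun n => (j + 1, n)
    else (Finset.range (2 ^ bf (sk j s))).image fun k => code (sk j s)
      (2 * k + cl (fun i => if h : i < j then v ⟨i, h⟩ else false) (sk j s)), ?_, ?_⟩
  · refine Finset.card_biUnion_le.trans ((Finset.sum_le_card_nsmul _ _ (4 * 2 ^ FF j)
      fun v _ => ?_).trans (le_of_eq ?_))
    · rw [Fintype.card_piFinset]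
      calc _ ≤ ∏ s : Fin (T j), (if (s : ℕ) = 0 then 4 else 1) * 2 ^ bf (sk j s) := by
            refine Finset.prod_le_prod' fun s _ => ?_
            split_ifs with h
            · refine Finset.card_image_le.trans ?_
              rw [Finset.card_range, h, sk_zero, bf_star]
              have : 2 ^ be j ≤ 2 * 2 ^ bq j := by
                rw [← pow_succ']
                exact Nat.pow_le_pow_right (by norm_num) (by unfold bq; omega)
              omega
            · refine Finset.card_image_le.trans ?_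
              rw [Finset.card_range, one_mul]
        _ = 4 * 2 ^ FF j := by
            rw [Fin.prod_univ_eq_prod_range
              (fun s => (if s = 0 then 4 else 1) * 2 ^ bf (sk j s)) (T j), Finset.prod_mul_distrib,
              Finset.prod_pow_eq_pow_sum, Finset.prod_ite_eq',
              if_pos (Finset.mem_range.2 (T_pos j))]
            rfl
    · rw [Finset.card_univ, Fintype.card_fun, Fintype.card_bool, Fintype.card_fin, smul_eq_mul]
      ring
  · intro y τ hy hj h
    rcases hy τ with e | e | ⟨j', n, c, -, hn, e, ⟨w, hc⟩, hs⟩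
    · rw [e] at h
      simp at h
    · rw [e] at h
      simp only at h
      omega
    · have hj' : j' = j := by
        rw [e] at h
        simpa using h
      subst hj'
      refine Finset.mem_biUnion.2 ⟨fun i => w i, Finset.mem_univ _, ?_⟩
      rw [Fintype.mem_piFinset]
      intro s
      split_ifs with h0
      · refine Finset.mem_image.2 ⟨n, Finset.mem_range.2 hn, ?_⟩
        simp only [win, h0, Nat.cast_zero, add_zero, e]
      · have h1 := Nat.pos_of_ne_zero h0
        obtain ⟨h2, h3⟩ := hc s h1 s.2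
        refine Finset.mem_image.2 ⟨c s / 2, Finset.mem_range.2 (half_lt h2), ?_⟩
        have h4 : cl (fun i => if h : i < j' then w i else false) (sk j' s) = cl w (sk j' s) := by
          rcases e' : sk j' s with _ | ⟨i, i'⟩
          · rfl
          · have h5 := (sk_level h1 s.2 e').1
            simp only [cl]
            by_cases h6 : i = i'
            · rw [dif_pos (by omega)]
            · rw [if_neg fun k => h6 k.1, if_neg fun k => h6 k.1]
        simp only []
        rw [h4, ← h3, Nat.div_add_mod]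
        exact (hs s h1 s.2).symm

/-- A finite set of size at most `r` contains all words of length `n` and level at most `J`. -/
def countCov (J n : ℕ) (r : ℝ) : Prop := ∃ S : Finset (Fin n → ℕ × ℕ), (S.card : ℝ) ≤ r ∧
  ∀ y τ, Lang y → (∀ i : Fin n, (y (τ + (i : ℕ))).1 ≤ J + 1) → win τ n y ∈ S

lemma count_zero (n : ℕ) : countCov 0 n (2 ^ n) := by
  refine ⟨Fintype.piFinset fun _ => {(0, 0), (1, 0)}, ?_, ?_⟩
  · rw [Fintype.card_piFinset, Finset.card_pair (by simp)]
    simp
  · intro y τ hy h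
    rw [Fintype.mem_piFinset]
    intro s
    have h1 := h s
    rcases hy (τ + (s : ℕ)) with e | e | ⟨j', n, c, hj, -, e, -, -⟩
    · simp [win, e]
    · simp [win, e]
    · rw [e] at h1
      simp only at h1
      omega

lemma count_empty (J : ℕ) {k : ℕ} (hk : k = 0) : countCov J k 1 := by
  subst hk
  exact ⟨{fun _ => (0, 0)}, by simp, fun y τ _ _ => Finset.mem_singleton.2 (Subsingleton.elim _ _)⟩

lemma count_mono {J n : ℕ} {r r' : ℝ} (h : countCov J n r) (h' : r ≤ r') : countCov J n r' := by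
  obtain ⟨S, h1, h2⟩ := h
  exact ⟨S, h1.trans h', h2⟩

/-- Cut a word at the first symbol of the top level. -/
lemma count_cut (j n : ℕ) (a v : ℕ → ℝ) (ha : ∀ i, countCov j i (a i))
    (hv : ∀ i, i < n → countCov (j + 1) (n - i - T (j + 1)) (v i)) :
    countCov (j + 1) n (a n + ∑ i ∈ Finset.range n, a i * (2 ^ (j + 3) * 2 ^ FF (j + 1) * v i)) := by
  classical
  obtain ⟨B, hB, hB'⟩ := blocks (j + 1)
  choose S hS hS' using ha
  choose! V hV hV' using hv
  refine ⟨S n ∪ (Finset.range n).biUnion fun i =>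
    (S i ×ˢ B ×ˢ V i).image (countGlue n i (T (j + 1))), ?_, ?_⟩
  · refine (Nat.cast_le.2 ((Finset.card_union_le _ _).trans
      (Nat.add_le_add_left Finset.card_biUnion_le _))).trans ?_
    push_cast
    refine add_le_add (hS n) (Finset.sum_le_sum fun i hi => ?_)
    refine (Nat.cast_le.2 Finset.card_image_le).trans ?_
    rw [Finset.card_product, Finset.card_product]
    push_cast
    have h1 : (B.card : ℝ) ≤ 2 ^ (j + 3) * 2 ^ FF (j + 1) := by exact_mod_cast hB
    have h2 := hV i (Finset.mem_range.1 hi)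
    have h3 : (0 : ℝ) ≤ a i := (Nat.cast_nonneg _).trans (hS i)
    exact mul_le_mul (hS i) (mul_le_mul h1 h2 (Nat.cast_nonneg _) (by positivity))
      (by positivity) h3
  · intro y τ hy h
    rw [Finset.mem_union]
    by_cases hex : ∃ i, i < n ∧ (y (τ + (i : ℕ))).1 = j + 1 + 1
    · right
      have hi := Nat.find_spec hex
      have hmin := fun k => Nat.find_min hex (m := k)
      generalize Nat.find hex = i at hi hmin
      refine Finset.mem_biUnion.2 ⟨i, Finset.mem_range.2 hi.1,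
        Finset.mem_image.2 ⟨_, ?_, count_glue n i (T (j + 1)) τ y⟩⟩
      refine Finset.mem_product.2 ⟨hS' i y τ hy fun s => ?_, Finset.mem_product.2
        ⟨hB' y _ hy (Nat.le_add_left _ _) hi.2, hV' i hi.1 y _ hy fun s => ?_⟩⟩
      · have h1 := h ⟨s, s.2.trans hi.1⟩
        have h2 := hmin s s.2
        have h3 := s.2.trans hi.1
        simp only [not_and] at h1 h2
        have h4 := h2 h3
        omega
      · have h0 := s.2
        have h1 := h ⟨i + T (j + 1) + s, by omega⟩
        simp only [Nat.cast_add, ← add_assoc] at h1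
        exact h1
    · left
      refine hS' n y τ hy fun s => ?_
      have h1 := h s
      have h2 : (y (τ + (s : ℕ))).1 ≠ j + 1 + 1 := fun e => hex ⟨s, s.2, e⟩
      omega

lemma count_ratio (j : ℕ) :
    (2 : ℝ) ^ pJ j / 2 ^ pJ (j + 1) ≤ 1 - (1 / 2) ^ (j + 3) := by
  have h0 : (0 : ℝ) ≤ (1 / 2) ^ (j + 2) := by positivity
  have h1 : ((1 : ℝ) / 2) ^ (j + 2) ≤ 1 := pow_le_one₀ (by norm_num) (by norm_num)
  have h2 := _root_.rpow_one_add_le_one_add_mul_self (s := -1 / 2) (by norm_num) h0 h1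
  rw [← Real.rpow_sub two_pos]
  calc (2 : ℝ) ^ (pJ j - pJ (j + 1)) ≤ 2 ^ (-((1 : ℝ) / 2) ^ (j + 2)) :=
        Real.rpow_le_rpow_of_exponent_le one_le_two (by linarith [pJ_gain j])
    _ = (1 + -1 / 2) ^ (((1 : ℝ) / 2) ^ (j + 2)) := by
        rw [Real.rpow_neg zero_le_two, ← Real.inv_rpow zero_le_two]
        norm_num
    _ ≤ _ := by
        rw [pow_succ _ (j + 2)]
        linarith

lemma count_pJ_nonneg (j : ℕ) : 0 ≤ pJ j := by
  unfold pJ
  split_ifs
  · exact zero_le_one
  · positivity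

lemma count_zT (j : ℕ) :
    (2 : ℝ) ^ (FF (j + 1) + m (j + 1)) ≤ ((2 : ℝ) ^ pJ (j + 1)) ^ T (j + 1) := by
  rw [← Real.rpow_natCast ((2 : ℝ) ^ pJ (j + 1)), ← Real.rpow_mul zero_le_two,
    ← Real.rpow_natCast]
  refine Real.rpow_le_rpow_of_exponent_le one_le_two ?_
  have h0 : (0 : ℝ) < T (j + 1) := fnum_T_cast _
  have h1 := (div_le_iff₀ h0).1 (fnum_m_div j)
  rw [pJ, if_neg (Nat.succ_ne_zero j), add_mul, div_mul_cancel₀ _ h0.ne', Nat.cast_add]
  linarith

lemma count_main (J : ℕ) : ∀ n, countCov J n (2 ^ (4 * T J) * ((2 : ℝ) ^ pJ J) ^ n) := by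
  induction J with
  | zero =>
    intro n
    refine count_mono (count_zero n) ?_
    rw [pJ, if_pos rfl, Real.rpow_one]
    exact le_mul_of_one_le_left (by positivity) (one_le_pow₀ one_le_two)
  | succ j ih =>
    intro n
    induction n using Nat.strong_induction_on with
    | _ n ihn =>
      have hz : (1 : ℝ) ≤ 2 ^ pJ (j + 1) := Real.one_le_rpow one_le_two (count_pJ_nonneg _)
      have hz0 : (0 : ℝ) < 2 ^ pJ (j + 1) := one_pos.trans_le hz
      have hT := T_pos (j + 1)
      have hcut := count_cut j n (fun i => 2 ^ (4 * T j) * ((2 : ℝ) ^ pJ j) ^ i)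
        (fun i => ((2 : ℝ) ^ (4 * T (j + 1)) / 2 ^ (FF (j + 1) + m (j + 1)) + 1) *
          ((2 : ℝ) ^ pJ (j + 1)) ^ (n - i)) ih (by
          intro i hi
          by_cases h : T (j + 1) ≤ n - i
          · refine count_mono (ihn _ (by omega)) ?_
            rw [pow_sub₀ _ hz0.ne' h, add_mul, one_mul]
            refine le_trans ?_ (le_add_of_nonneg_right (by positivity))
            have h1 := inv_anti₀ (by positivity) (count_zT j)
            calc _ ≤ (2 : ℝ) ^ (4 * T (j + 1)) * (((2 : ℝ) ^ pJ (j + 1)) ^ (n - i) *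
                  ((2 : ℝ) ^ (FF (j + 1) + m (j + 1)))⁻¹) := by gcongr
              _ = _ := by ring
          · refine count_mono (count_empty _ (by omega)) ?_
            exact one_le_mul_of_one_le_of_one_le (le_add_of_nonneg_left (by positivity))
              (one_le_pow₀ hz))
      refine count_mono hcut ?_
      have a1 := T_le_m j
      have a2 := lt_m j
      have a3 := m_le_T j
      have a4 := m_le_T (j + 1)
      have a5 : 2 * FF (j + 1) ≤ 5 * T (j + 1) := by
        have h := FF_le (j + 1)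
        have h' : (2 : ℝ) * FF (j + 1) ≤ 5 * T (j + 1) := by linarith
        exact_mod_cast h'
      refine count_num (Sg := 2 ^ (j + 3)) n hz0 (by positivity) ?_ (by positivity)
        (by positivity) (by positivity) (by positivity) (one_le_pow₀ one_le_two) ?_ ?_ ?_
      · refine Real.rpow_le_rpow_of_exponent_le one_le_two ?_
        have h0 : (0 : ℝ) ≤ (1 / 2) ^ (j + 2) := by positivity
        linarith [pJ_gain j]
      · refine (count_geom (by positivity) (by positivity) (count_ratio j) n).trans (le_of_eq ?_)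
        rw [one_div, ← inv_pow]
        norm_num
      · calc (2 : ℝ) * (2 ^ (4 * T j) * 2 ^ (j + 3) * (2 ^ (j + 3) * 2 ^ FF (j + 1)))
            = 2 ^ (4 * T j + (j + 3) + FF (j + 1) + (j + 3) + 1) := by
              simp only [pow_add]
              ring
          _ ≤ _ := pow_le_pow_right₀ one_le_two (by omega)
      · have h1 : (1 : ℝ) ≤ 2 ^ (j + 3) * 2 ^ FF (j + 1) :=
          one_le_mul_of_one_le_of_one_le (one_le_pow₀ one_le_two) (one_le_pow₀ one_le_two)
        calc (2 : ℝ) * (2 ^ (4 * T j) * 2 ^ (j + 3) * (1 + 2 ^ (j + 3) * 2 ^ FF (j + 1)))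
            ≤ 2 * (2 ^ (4 * T j) * 2 ^ (j + 3) * (2 * (2 ^ (j + 3) * 2 ^ FF (j + 1)))) := by
              gcongr
              linarith
          _ = 2 ^ (4 * T j + (j + 3) + FF (j + 1) + (j + 3) + 2) := by
              simp only [pow_add]
              ring
          _ ≤ _ := pow_le_pow_right₀ one_le_two (by omega)

theorem count (J n : ℕ) : ∃ S : Finset (Fin n → ℕ × ℕ),
    (S.card : ℝ) ≤ 2 ^ (4 * T J) * (2 : ℝ) ^ (pJ J * n) ∧
      ∀ y τ, Lang y → (∀ i : Fin n, (y (τ + (i : ℕ))).1 ≤ J + 1) → win τ n y ∈ S := by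
  rw [Real.rpow_mul zero_le_two, Real.rpow_natCast]
  exact count_main J n

end Pool.Agent.P.MP_1672e2_an.Cq.Un
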