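import Pool.Agent.P.MP_1672e2_an.Cq.Main

/-! Definitions for the example with colours. -/

set_option autoImplicit false

namespace Pool.Agent.P.MP_1672e2_an.Cq.Un

open MeasureTheory Set Filter Topology

/-- Free bits at a star of a given level. -/
def bq (j : ℕ) : ℕ := be j - 1

/-- Free bits at a time of a given type. -/
def bf (a : Ty) : ℕ := bt a - 1

/-- The parity prescribed by a colouring of the levels. -/
def cl (w : ℕ → Bool) : Ty → ℕ
  | none => 0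
  | some p => if p.1 = p.2 ∧ 1 ≤ p.1 ∧ w (p.1 - 1) = true then 1 else 0

/-- Admissible choices in a block: all stars of one level have choices of the same parity. -/
def Adm (j : ℕ) (c : ℕ → ℕ) : Prop :=
  ∃ w : ℕ → Bool, ∀ s, 0 < s → s < T j → c s < 2 ^ bt (sk j s) ∧ c s % 2 = cl w (sk j s)

/-- Bits per period. -/
def FF (j : ℕ) : ℕ := ∑ s ∈ Finset.range (T j), bf (sk j s)

/-- The entropy of the example. -/
noncomputable def hh : ℝ := Real.log 2 * ⨆ j, (FF j : ℝ) / T j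

/-- Growth rate (in bits) of the words of level at most `J`. -/
noncomputable def pJ (J : ℕ) : ℝ := if J = 0 then 1 else (FF J : ℝ) / T J + (1 / 2) ^ (J + 2)

/-- Constraints satisfied by all names. -/
def Lang (y : Om) : Prop :=
  ∀ τ : ℤ, y τ = (0, 0) ∨ y τ = (1, 0) ∨ ∃ (j n : ℕ) (c : ℕ → ℕ), 1 ≤ j ∧ n < 2 * 2 ^ be j ∧
    y τ = (j + 1, n) ∧ Adm j c ∧ ∀ s, 0 < s → s < T j → y (τ + s) = code (sk j s) (c s)

/-- Designated names. -/
def Des (y : Om) : Prop :=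
  ∃ (ty : ℤ → Ty) (c : ℤ → ℕ), (∀ t, y t = code (ty t) (c t)) ∧ ∀ n : ℕ, ∃ (J : ℕ) (τ : ℤ),
    τ < -n ∧ (n : ℤ) < τ + T J ∧ ty τ ≠ none ∧ ty (τ + T J) ≠ none ∧
      (∀ s, 0 < s → s < T J → ty (τ + s) = sk J s) ∧ Adm J fun s => c (τ + s)

open Classical in
/-- The centres of level `j`. -/
noncomputable def Yset (j : ℕ) : Finset ℝ :=
  (Cq.Yset j).filter fun y => ∃ c, Adm j c ∧ y = yv j c

/-- The centres of level `j` are separated. -/
def Sep (j : ℕ) : Prop :=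
  ∀ y ∈ Yset j, ∀ y' ∈ Yset j, |y - y'| ≤ 2 * |rho j| * de' j → y = y'

/-- The wiggles of one level. -/
noncomputable def Xj (j : ℕ) (p : ℝ × ℝ) : ℝ := ∑ y ∈ Yset j ×ˢ Yset j, xi j y.1 y.2 p

/-- All wiggles. -/
noncomputable def Xi (p : ℝ × ℝ) : ℝ := ∑' j, Xj j p

/-- The map is `(x, y) ↦ (y, HH (x, y))`. -/
noncomputable def HH (p : ℝ × ℝ) : ℝ := GG p.2 - al p.1 + Xi p

/-- Some wiggle is active. -/
def Act (p : ℝ × ℝ) : Prop := ∃ j, ∃ y ∈ Yset j, ∃ y' ∈ Yset j, xi j y y' p ≠ 0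

/-- The branch `n` of an active wiggle of level `j`. -/
def Cell (j n : ℕ) : Set (ℝ × ℝ) :=
  {p | ∃ y ∈ Yset j, ∃ y' ∈ Yset j, xi j y y' p ≠ 0 ∧ ⌊(tt j y y' p + 2) / 4⌋₊ = n}

open Classical in
/-- The symbol of a point. -/
noncomputable def sym (p : ℝ × ℝ) : ℕ × ℕ :=
  if p.2 < 1 / 4 then (0, 0)
  else if h : ∃ a : ℕ × ℕ, p ∈ Cell a.1 a.2 then (h.choose.1 + 1, h.choose.2) else (1, 0)

/-- Orbits in the core. -/
def Orb (x : ℤ → ℝ) : Prop :=
  ∀ t, 0 ≤ x t ∧ x t ≤ 1 ∧ x (t + 1) + x (t - 1) = GG (x t) + Xi (x (t - 1), x t)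

/-- The name of an orbit. -/
noncomputable def nm (x : ℤ → ℝ) : Om := fun t => sym (x (t - 1), x t)

/-- Orbits on the torus, read in a fundamental domain. -/
def GOrb (x : ℤ → ℝ) : Prop :=
  ∀ t, -16 ≤ x t ∧ x t < 24 ∧ ∃ n : ℤ, x (t + 1) = HH (x (t - 1), x t) + 40 * n

end Pool.Agent.P.MP_1672e2_an.Cq.Un
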