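import Pool.Agent.P.MP_1672e2_an.Cb.Comb

/-! Formal orbits of monochrome blocks are true orbits. -/

set_option autoImplicit false

namespace Pool.Agent.P.MP_1672e2_an.Cq.Un

open MeasureTheory Set Filter Topology

lemma mem_Yset {j : ℕ} {y : ℝ} : y ∈ Yset j ↔ ∃ c, Adm j c ∧ y = yv j c := by
  classical
  unfold Yset
  rw [Finset.mem_filter]
  exact ⟨fun h => h.2, fun ⟨c, h1, h2⟩ => ⟨Cq.mem_Yset.2 ⟨c, h1.old, h2⟩, c, h1, h2⟩⟩

lemma Y_old {j : ℕ} {y : ℝ} (h : y ∈ Yset j) : y ∈ Cq.Yset j := by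
  obtain ⟨c, h1, h2⟩ := mem_Yset.1 h
  exact Cq.mem_Yset.2 ⟨c, h1.old, h2⟩

theorem sep (j : ℕ) : Sep j := fun y hy y' hy' => Cq.sep j y (Y_old hy) y' (Y_old hy')

/-- At a star, a formal orbit is on the designated branch of a wiggle. -/
lemma formal_star {j s i : ℕ} {c : ℕ → ℕ} {X : ℕ → ℝ} (hc : Adm j c) (hX : Sol j c X)
    (h0 : |1 / 2 - X 0| ≤ 5 / 1024) (h1 : |1 / 2 - X (T j)| ≤ 5 / 1024) (hs : 0 < s)
    (hs' : s < T j) (e : sk j s = some (i, i)) : ∃ y ∈ Yset i, ∃ y' ∈ Yset i,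
      |om i y (X (s - 1), X s)| ≤ de i ∧ |tt i y y' (X (s - 1), X s) - 8 * c s| ≤ 1 := by
  obtain ⟨-, hp, -⟩ := formal hc.old hX h0 h1
  obtain ⟨r1, r2, i1, r3, r4⟩ := sk_sub_right hs hs' e
  obtain ⟨l1, l2, i2, l3, l4⟩ := sk_sub_left hs hs' e
  have hR : Sol i (fun r => c (s + r)) fun r => X (s + r) := by
    intro r hr hr'
    have h := hX (s + r) (by omega) (by omega)
    rw [r2 r hr hr'] at h
    have e1 : s + (r - 1) = s + r - 1 := by omega
    simpa only [e1, ← add_assoc] using h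
  have hL : Sol i (fun r => c (s - r)) fun r => X (s - r) := by
    intro r hr hr'
    have h := hX (s - r) (by omega) (by omega)
    rw [l2 r hr hr', sl_swap, ic_swap] at h
    have e1 : s - (r - 1) = s - r + 1 := by omega
    have e2 : s - (r + 1) = s - r - 1 := by omega
    simp only [e1, e2]
    linarith
  have aR : Adm i fun r => c (s + r) := by
    obtain ⟨w, hc⟩ := hc
    refine ⟨w, fun r hr hr' => ?_⟩
    have h := hc (s + r) (by omega) (by omega)
    rwa [r2 r hr hr'] at h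
  have aL : Adm i fun r => c (s - r) := by
    obtain ⟨w, hc⟩ := hc
    refine ⟨w, fun r hr hr' => ?_⟩
    have h := hc (s - r) (by omega) (by omega)
    rwa [l2 r hr hr', bt_swap, cl_swap] at h
  have vR := hR.val
  have vL := hL.val
  simp only [add_zero, Nat.sub_zero] at vR vL
  have bR : |1 / 2 - X (s + T i)| ≤ de i := by
    have h := (hp _ _ _ (by omega) r1 r4).1
    rw [min_eq_left r3] at h
    exact II_le_de le_rfl h
  have bL : |1 / 2 - X (s - T i)| ≤ de i := by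
    have h := (hp _ _ _ (by omega) (by omega) l4).1
    rw [min_eq_right l3] at h
    exact II_le_de le_rfl h
  have law := formal_law hX hs hs' e
  rw [min_self] at law
  have hρ := rho_ne i
  have hu := uu_pos i
  refine ⟨_, mem_Yset.2 ⟨_, aL, rfl⟩, _, mem_Yset.2 ⟨_, aR, rfl⟩, ?_, ?_⟩
  · have : om i (yv i fun r => c (s - r)) (X (s - 1), X s) = 1 / 2 - X (s - T i) := by
      rw [om, div_eq_iff hρ]
      linear_combination vL
    rwa [this]
  · have : tt i (yv i fun r => c (s - r)) (yv i fun r => c (s + r)) (X (s - 1), X s) - 8 * c s =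
        rho i * ((1 / 2 - X (s - T i)) + (1 / 2 - X (s + T i))) / uu i := by
      rw [tt, eq_div_iff hu.ne', sub_mul, div_mul_cancel₀ _ hu.ne']
      linear_combination law + vL + vR
    rw [this, abs_div, abs_of_pos hu, div_le_one hu, abs_mul, uu]
    have h2 := (abs_add_le _ _).trans (add_le_add bL bR)
    nlinarith [abs_nonneg (rho i)]

lemma Rg_loc {j : ℕ} {y y' : ℝ} {p : ℝ × ℝ} (hj : 1 ≤ j) (hy : y ∈ Yset j) (hy' : y' ∈ Yset j)
    (h : p ∈ Rg j y y') : 1 / 2 - p.2 ∈ II (m j) ∧ Bd (m j) (p.1 - p.2 / lam) ∧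
      Bd (m j) (Af (m j) (1 / 2 - p.2) - (p.1 - p.2 / lam)) :=
  Cq.Rg_loc hj (Y_old hy) (Y_old hy') h

lemma Rg_disj {j : ℕ} {y y' z z' : ℝ} {p : ℝ × ℝ} (hS : Sep j) (hj : 1 ≤ j) (hy : y ∈ Yset j)
    (hy' : y' ∈ Yset j) (hz : z ∈ Yset j) (hz' : z' ∈ Yset j) (h : p ∈ Rg j y y')
    (h' : p ∈ Rg j z z') : y = z ∧ y' = z' := by
  obtain ⟨ω, v, h1, h2, h3, h4⟩ := reg_facts hj h
  obtain ⟨ω', v', k1, k2, k3, k4⟩ := reg_facts hj h'
  have d0 := de'_pos j
  have key : ∀ s t : ℝ, |s| ≤ de' j → |t| ≤ de' j → |rho j * (s - t)| ≤ 2 * |rho j| * de' j :=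
    fun s t hs ht => by
      rw [abs_mul, mul_comm 2, mul_assoc]
      exact mul_le_mul_of_nonneg_left ((abs_sub _ _).trans (by linarith)) (abs_nonneg _)
  obtain rfl : y = z := hS y hy z hz (by
    rw [show y - z = rho j * (ω' - ω) by linarith]
    exact key _ _ (by linarith) (by linarith))
  exact ⟨rfl, hS y' hy' z' hz' (by
    rw [show y' - z' = rho j * (v' - v) by linarith]
    exact key _ _ (by linarith) (by linarith))⟩

lemma reg_uniq {j i : ℕ} {y y' z z' : ℝ} {p : ℝ × ℝ} (hS : Sep j) (hj : 1 ≤ j) (hy : y ∈ Yset j)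
    (hy' : y' ∈ Yset j) (h : p ∈ Rg j y y') (hz : z ∈ Yset i) (hz' : z' ∈ Yset i)
    (h' : xi i z z' p ≠ 0) : j = i ∧ y = z ∧ y' = z' := by
  obtain ⟨hi, h1⟩ := xi_ne h'
  obtain rfl : j = i := m_strictMono.injective
    (II_unique (m_pos j) (m_pos i) (Rg_loc hj hy hy' h).1 (Rg_loc hi hz hz' h1).1)
  exact ⟨rfl, Rg_disj hS hj hy hy' hz hz' h h1⟩

lemma Act.loc {p : ℝ × ℝ} (h : Act p) : ∃ j, 1 ≤ j ∧ 1 / 2 - p.2 ∈ II (m j) ∧
    Bd (m j) (p.1 - p.2 / lam) ∧ Bd (m j) (Af (m j) (1 / 2 - p.2) - (p.1 - p.2 / lam)) := by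
  obtain ⟨j, y, hy, y', hy', h⟩ := h
  exact ⟨j, (xi_ne h).1, Rg_loc (xi_ne h).1 hy hy' (xi_ne h).2⟩

lemma Xi_eq_zero {p : ℝ × ℝ} (h : ¬ Act p) : Xi p = 0 := by
  have : ∀ j, Xj j p = 0 := fun j => Finset.sum_eq_zero fun y hy => by
    by_contra hc
    exact h ⟨j, _, (Finset.mem_product.1 hy).1, _, (Finset.mem_product.1 hy).2, hc⟩
  simp only [Xi, this, tsum_zero]

/-- Outside the unit square, and away from the passages, nothing is active. -/
lemma not_act {p : ℝ × ℝ} (h : p.1 ≤ 0 ∨ 1 ≤ p.1 ∨ p.2 ≤ 1 / 2 - 4 / 1024 ∨ 1 / 2 ≤ p.2) :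
    ¬ Act p := by
  intro hA
  obtain ⟨j, -, h1, ⟨h2, h3⟩, -⟩ := hA.loc
  obtain ⟨h4, h5⟩ := II_bound (m_pos j) h1
  have S0 := sc_pos (m j)
  have S1 : sc (m j) ≤ 1 := sc_one ▸ sc_anti (m_pos j)
  have l1 : (2 : ℝ) ≤ lam := by norm_num [lam]
  have a1 : 0 ≤ p.2 / lam := div_nonneg (by linarith) (by linarith)
  have a2 : p.2 / lam ≤ 1 / 4 := by rw [div_le_iff₀ (by linarith)]; linarith
  rcases h with h | h | h | h <;> linarith

lemma Xi_eq {j : ℕ} {y y' : ℝ} {p : ℝ × ℝ} (hS : Sep j) (hj : 1 ≤ j) (hy : y ∈ Yset j)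
    (hy' : y' ∈ Yset j) (h : p ∈ Rg j y y') : Xi p = xi j y y' p := by
  rw [Xi, tsum_eq_single j, Xj, Finset.sum_eq_single (y, y')]
  · intro z hz hne
    by_contra hc
    obtain ⟨-, e1, e2⟩ := reg_uniq hS hj hy hy' h (Finset.mem_product.1 hz).1
      (Finset.mem_product.1 hz).2 hc
    exact hne (Prod.ext e1.symm e2.symm)
  · exact fun hn => absurd (Finset.mk_mem_product hy hy') hn
  · intro i hi
    refine Finset.sum_eq_zero fun z hz => ?_
    by_contra hc
    exact hi (reg_uniq hS hj hy hy' h (Finset.mem_product.1 hz).1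
      (Finset.mem_product.1 hz).2 hc).1.symm

lemma not_act_of_Rg {j : ℕ} {y y' : ℝ} {p : ℝ × ℝ} (hS : Sep j) (hj : 1 ≤ j) (hy : y ∈ Yset j)
    (hy' : y' ∈ Yset j) (h : p ∈ Rg j y y') (h0 : xi j y y' p = 0) : ¬ Act p := by
  rintro ⟨i, z, hz, z', hz', hc⟩
  obtain ⟨rfl, rfl, rfl⟩ := reg_uniq hS hj hy hy' h hz hz' hc
  exact hc h0

lemma sym_zero {p : ℝ × ℝ} (h : p.2 < 1 / 4) : sym p = (0, 0) := by
  rw [sym, if_pos h]

lemma sym_eq_zero {p : ℝ × ℝ} : sym p = (0, 0) ↔ p.2 < 1 / 4 := by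
  refine ⟨fun h => ?_, sym_zero⟩
  by_contra hc
  rw [sym, if_neg hc] at h
  split_ifs at h
  · exact Nat.succ_ne_zero _ (congrArg Prod.fst h)
  · exact Nat.succ_ne_zero _ (congrArg Prod.fst h)

lemma sym_base {p : ℝ × ℝ} (h : 1 / 4 ≤ p.2) (h' : ¬ Act p) : sym p = (1, 0) := by
  rw [sym, if_neg (not_lt.2 h), dif_neg]
  rintro ⟨a, y, hy, y', hy', hc, -⟩
  exact h' ⟨_, y, hy, y', hy', hc⟩

lemma sym_act {j : ℕ} {y y' : ℝ} {p : ℝ × ℝ} (hS : Sep j) (hy : y ∈ Yset j) (hy' : y' ∈ Yset j)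
    (h : xi j y y' p ≠ 0) : sym p = (j + 1, ⌊(tt j y y' p + 2) / 4⌋₊) := by
  have h1 : ¬ p.2 < 1 / 4 := fun hc =>
    not_act (.inr (.inr (.inl (by linarith)))) ⟨j, y, hy, y', hy', h⟩
  have h2 : ∃ a : ℕ × ℕ, p ∈ Cell a.1 a.2 := 
    ⟨(j, ⌊(tt j y y' p + 2) / 4⌋₊), y, hy, y', hy', h, rfl⟩
  rw [sym, if_neg h1, dif_pos h2]
  obtain ⟨z, hz, z', hz', hc, e⟩ := h2.choose_spec
  generalize h2.choose = a at hz hz' hc e ⊢
  obtain ⟨rfl, rfl, rfl⟩ := reg_uniq hS (xi_ne h).1 hy hy' (xi_ne h).2 hz hz' hc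
  rw [e]

lemma valid_of_sep {j : ℕ} (hS : ∀ i, i < j → Sep i) {c : ℕ → ℕ} {X : ℕ → ℝ} (hc : Adm j c)
    (hX : Sol j c X) (h0 : |1 / 2 - X 0| ≤ 5 / 1024) (h1 : |1 / 2 - X (T j)| ≤ 5 / 1024) {s : ℕ}
    (hs : 0 < s) (hs' : s < T j) :
    X (s + 1) + X (s - 1) = GG (X s) + Xi (X (s - 1), X s) ∧
      sym (X (s - 1), X s) = code (sk j s) (c s) := by
  obtain ⟨f1, f2, -⟩ := formal hc.old hX h0 h1
  have e := hX s hs hs'
  have hn := hc.old s hs hs'
  rcases hk : sk j s with _ | ⟨i, i'⟩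
  · obtain ⟨a1, a2⟩ := f1 s hs hs' hk
    have a3 : X s < 1 / 4 := by nlinarith [av_ge]
    rw [hk] at e
    have a4 : ¬ Act (X (s - 1), X s) := not_act (Or.inr (Or.inr (Or.inl (by
      show X s ≤ _; linarith))))
    refine ⟨?_, sym_zero a3⟩
    rw [e, GG_lin a1 a2, Xi_eq_zero a4]
    simp [sl, ic]
  · obtain ⟨a1, a2, a3⟩ := f2 s i i' hs hs' hk
    have hm : 1 ≤ m (min i i') := m_pos _
    have hb := II_bound hm a1
    have hq : 1 / 4 ≤ X s := by linarith [hb.2]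
    have hG := valid_pass hm a1
    rw [hk] at e hn
    have e' : X (s + 1) + X (s - 1) =
        2 * X s / lam + Af (m (min i i')) (1 / 2 - X s) - 8 * c s * uu (min i i') := by
      rw [e]; simp only [sl, ic, Af]; ring
    by_cases hi : i = i' ∧ 1 ≤ i
    · obtain ⟨rfl, hi⟩ := hi
      rw [min_self] at e' hG
      have hl := (sk_level hs hs' hk).1
      rw [min_self] at hl
      obtain ⟨y, hy, y', hy', b1, b2⟩ := formal_star hc hX h0 h1 hs hs' hk
      have hn' : c s < 2 ^ be i := by simpa [bt] using hn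
      have hn2 : (c s : ℝ) + 1 ≤ 2 ^ be i := by exact_mod_cast hn'
      have hd := de_le hi
      have hd0 := de_pos i
      have hd1 := de'_pos i
      have b3 := abs_le.1 b2
      have c0 : (0 : ℝ) ≤ c s := Nat.cast_nonneg _
      have hR : (X (s - 1), X s) ∈ Rg i y y' :=
        ⟨by linarith, by linarith [b3.1], by linarith [b3.2]⟩
      have hx : xi i y y' (X (s - 1), X s) = -(8 * c s * uu i) := by
        unfold xi
        rw [chi_one, DD_up (n := c s) (by omega) (b2.trans (by norm_num))]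
        · ring
        · rw [abs_div, abs_of_pos hd1, div_le_iff₀ hd1]; linarith
      refine ⟨by rw [e', hG, Xi_eq (hS i hl) hi hy hy' hR, hx]; ring, ?_⟩
      by_cases hz : c s = 0
      · rw [sym_base hq (not_act_of_Rg (hS i hl) hi hy hy' hR (by rw [hx, hz]; simp))]
        simp [code, hz]
      · have hu := uu_pos i
        have c1 : (1 : ℝ) ≤ c s := by exact_mod_cast Nat.one_le_iff_ne_zero.2 hz
        rw [sym_act (hS i hl) hy hy' (by rw [hx]; nlinarith)]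
        simp only [code, if_neg hz]
        congr 1
        rw [Nat.floor_eq_iff (by linarith [b3.1])]
        push_cast
        constructor <;> linarith [b3.1, b3.2]
    · have hz : c s = 0 := by
        by_cases h2 : i = i'
        · have : i = 0 := by omega
          subst h2; subst this
          simpa [bt, be] using hn
        · simpa [bt, h2] using hn
      have ha : ¬ Act (X (s - 1), X s) := by
        intro ha
        obtain ⟨j', b0, b1, b2, b3⟩ := ha.loc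
        have b4 : j' = min i i' := m_strictMono.injective (II_unique (m_pos _) hm b1 a1)
        subst b4
        have b5 : Af (m (min i i')) (1 / 2 - X s) - (X (s - 1) - X s / lam) =
            X (s + 1) - X s / lam := by
          rw [hz] at e'
          have : 2 * X s / lam = X s / lam + X s / lam := by ring
          simp only [Nat.cast_zero, mul_zero, zero_mul, sub_zero] at e'
          linarith
        simp only [b5] at b3
        have b6 := m_strictMono.injective (Bd.unique b2 a3)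
        have b7 := m_strictMono.injective (Bd.unique b3 a2)
        omega
      refine ⟨by rw [e', hG, Xi_eq_zero ha, hz]; simp, ?_⟩
      rw [sym_base hq ha]
      simp [code, hz]

theorem valid {j : ℕ} {c : ℕ → ℕ} {X : ℕ → ℝ} (hc : Adm j c)
    (hX : Sol j c X) (h0 : |1 / 2 - X 0| ≤ 5 / 1024) (h1 : |1 / 2 - X (T j)| ≤ 5 / 1024) {s : ℕ}
    (hs : 0 < s) (hs' : s < T j) :
    X (s + 1) + X (s - 1) = GG (X s) + Xi (X (s - 1), X s) ∧
      sym (X (s - 1), X s) = code (sk j s) (c s) :=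
  valid_of_sep (fun i _ => sep i) hc hX h0 h1 hs hs'

end Pool.Agent.P.MP_1672e2_an.Cq.Un
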