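import Pool.Agent.P.MP_1672e2_an.Cb.Tor

/-! Uncountably many measures of maximal entropy. -/

set_option autoImplicit false

namespace Pool.Agent.P.MP_1672e2_an.Cq.Un

open MeasureTheory Set Filter Topology

lemma upk_gap {y : Om} (hy : Lang y) {J i k : ℕ} (hik : i < k) (hk : k < m (J + 1))
    (h1 : J + 1 < (y (i : ℤ)).1) : ¬ J + 1 < (y (k : ℤ)).1 := by
  rcases hy i with h | h | ⟨j, n, c, -, -, h, -, h'⟩
  · rw [h] at h1; simp at h1
  · rw [h] at h1; simp at h1
  · rw [h] at h1
    have hj : J + 1 ≤ j := by simp only at h1; omega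
    have hm : m (J + 1) ≤ m j := m_strictMono.monotone hj
    have hT := m_le_T j
    have h2 := (sk_right (T_pos j) (sk_zero j)).2.1 (k - i) (by omega) (by omega)
    have h3 := h' (k - i) (by omega) (by omega)
    rw [zero_add] at h2
    have h4 : (i : ℤ) + ((k - i : ℕ) : ℤ) = k := by omega
    rw [h2, h4] at h3
    rw [h3]
    simp [code]

lemma rare {ν : Measure Om} [IsProbabilityMeasure ν] (hν : MeasurePreserving sh ν ν)
    (hL : ∀ᵐ y ∂ν, Lang y) (J : ℕ) : ν.real {y | J + 1 < (y 0).1} ≤ 1 / m (J + 1) := by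
  have hM : (0 : ℝ) < m (J + 1) := by exact_mod_cast m_pos (J + 1)
  have hd : Set.Pairwise (↑(Finset.range (m (J + 1))) : Set ℕ)
      (Function.onFun (AEDisjoint ν) fun i : ℕ => {y : Om | J + 1 < (y (i : ℤ)).1}) := by
    intro i hi k hk hik
    have hi' : i < m (J + 1) := by simpa using hi
    have hk' : k < m (J + 1) := by simpa using hk
    refine measure_mono_null (t := {y | ¬ Lang y}) ?_ (ae_iff.1 hL)
    rintro y ⟨h1, h2⟩ hy
    rcases lt_or_gt_of_ne hik with h | h
    · exact upk_gap hy h hk' h1 h2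
    · exact upk_gap hy h hi' h2 h1
  have h1 := measureReal_biUnion_finset₀ hd
    (fun i _ => (upk_meas J (i : ℤ)).nullMeasurableSet) (fun _ _ => measure_ne_top _ _)
  simp only [upk_eq hν, Finset.sum_const, Finset.card_range, nsmul_eq_mul] at h1
  have h2 : ν.real (⋃ i ∈ Finset.range (m (J + 1)), {y : Om | J + 1 < (y (i : ℤ)).1}) ≤ 1 :=
    measureReal_le_one
  rw [le_div_iff₀ hM]
  linarith

theorem ent_le_hh {ν : Measure Om} [IsProbabilityMeasure ν] (hν : MeasurePreserving sh ν ν)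
    (hL : ∀ᵐ y ∂ν, Lang y) {c : ℝ} (hc : Ent sh ν c) : c ≤ hh := by
  refine Cx.ent_le_of_words hν hh_pos.le (fun ε hε n₀ => ?_) hc
  obtain ⟨J₀, hJ₀⟩ := exists_pow_lt_of_lt_one hε (by norm_num : (1 / 2 : ℝ) < 1)
  obtain ⟨J, hJ1, hJn, hJ⟩ : ∃ J : ℕ, 1 ≤ J ∧ n₀ ≤ J ∧ (1 / 2 : ℝ) ^ J ≤ ε :=
    ⟨J₀ + n₀ + 1, by omega, by omega,
      (pow_le_pow_of_le_one (by norm_num) (by norm_num) (by omega)).trans hJ₀.le⟩
  have hT := T_pos J
  have hT' : (0 : ℝ) < T J := by exact_mod_cast hT
  obtain ⟨S, hS, hS'⟩ := count J (2 ^ (J + 3) * T J)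
  refine ⟨2 ^ (J + 3) * T J, ?_, S, hS.trans ?_, ?_⟩
  · have h1 : J + 3 < 2 ^ (J + 3) := Nat.lt_two_pow_self
    have h2 : 2 ^ (J + 3) ≤ 2 ^ (J + 3) * T J := Nat.le_mul_of_pos_right _ hT
    omega
  · have hl0 : 0 < Real.log 2 := Real.log_pos (by norm_num)
    have hl1 : Real.log 2 ≤ 1 := by
      have := Real.log_le_sub_one_of_pos (by norm_num : (0 : ℝ) < 2)
      linarith
    rw [← Real.rpow_natCast, ← Real.rpow_add (by norm_num), Real.rpow_def_of_pos (by norm_num)]
    refine Real.exp_le_exp.2 ?_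
    have hp : pJ J = (FF J : ℝ) / T J + (1 / 2) ^ (J + 2) := by
      rw [pJ, if_neg (by omega)]
    have h1 := le_hh J
    set N : ℝ := ((2 ^ (J + 3) * T J : ℕ) : ℝ) with hN
    have hN0 : 0 ≤ N := Nat.cast_nonneg _
    have h2 : ((4 * T J : ℕ) : ℝ) = (1 / 2) ^ (J + 1) * N := by
      rw [hN]
      push_cast
      rw [one_div, inv_pow]
      field_simp
      ring
    have h3 : (1 / 2 : ℝ) ^ (J + 1) + (1 / 2) ^ (J + 2) ≤ ε := by
      have h4 : (0 : ℝ) ≤ (1 / 2) ^ J := by positivity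
      rw [pow_succ, pow_succ, pow_succ]
      linarith
    have h5 : Real.log 2 * ((1 / 2 : ℝ) ^ (J + 1) + (1 / 2) ^ (J + 2)) ≤ ε := by
      have h6 : (0 : ℝ) ≤ (1 / 2 : ℝ) ^ (J + 1) + (1 / 2) ^ (J + 2) := by positivity
      nlinarith
    rw [h2, hp]
    have h7 := mul_le_mul_of_nonneg_right (add_le_add h1 h5) hN0
    refine le_trans (le_of_eq ?_) h7
    ring
  · have hsub : {y : Om | win 0 (2 ^ (J + 3) * T J) y ∉ S} ≤ᵐ[ν]
        (⋃ i ∈ Finset.range (2 ^ (J + 3) * T J), {y : Om | J + 1 < (y (i : ℤ)).1} : Set Om) := by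
      filter_upwards [hL] with y hy h
      by_contra hc'
      refine h (hS' y 0 hy fun i => ?_)
      by_contra hi
      refine hc' (mem_iUnion₂.2 ⟨i, Finset.mem_range.2 i.2, ?_⟩)
      rw [zero_add] at hi
      exact not_le.1 hi
    have h1 : ν.real {y : Om | win 0 (2 ^ (J + 3) * T J) y ∉ S} ≤
        ν.real (⋃ i ∈ Finset.range (2 ^ (J + 3) * T J), {y : Om | J + 1 < (y (i : ℤ)).1}) :=
      ENNReal.toReal_mono (measure_ne_top _ _) (measure_mono_ae hsub)
    have h2 := measureReal_biUnion_finset_le (μ := ν) (Finset.range (2 ^ (J + 3) * T J))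
      (fun i : ℕ => {y : Om | J + 1 < (y (i : ℤ)).1})
    simp only [upk_eq hν, Finset.sum_const, Finset.card_range, nsmul_eq_mul] at h2
    have h3 := mul_le_mul_of_nonneg_left (rare hν hL J)
      (Nat.cast_nonneg (α := ℝ) (2 ^ (J + 3) * T J))
    have h4 : ((2 ^ (J + 3) * T J : ℕ) : ℝ) * (1 / m (J + 1)) ≤ (1 / 2) ^ (J + 3) := by
      have h5 : (m (J + 1) : ℝ) = 2 ^ (J + 3) * 2 ^ (J + 3) * T J + 1 := by
        rw [num_m, ← pow_add, show J + 3 + (J + 3) = 2 * J + 6 by ring]
        push_cast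
        rfl
      rw [mul_one_div, div_le_iff₀ (by exact_mod_cast m_pos _), h5, one_div, inv_pow,
        ← div_eq_inv_mul, le_div_iff₀ (by positivity)]
      push_cast
      linarith
    have h6 : (1 / 2 : ℝ) ^ (J + 3) ≤ (1 / 2) ^ J :=
      pow_le_pow_of_le_one (by norm_num) (by norm_num) (by omega)
    linarith

lemma skel_bt_le {J r : ℕ} (hr : r < T J) : bf (sk J r) ≤ FF J :=
  Finset.single_le_sum (f := fun s => bf (sk J s)) (fun _ _ => Nat.zero_le _)
    (Finset.mem_range.2 hr)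

/-- The name attached to a colouring, a point of the odometer and a sequence of choices. -/
noncomputable def skelPi (w : ℕ → Bool) (p : Rk × (ℤ → ℝ)) : Om :=
  fun t => code (ty ps (zp RR t p.1))
    (2 * ix (2 ^ bf (ty ps (zp RR t p.1))) (p.2 t) + cl w (ty ps (zp RR t p.1)))

open Classical in
/-- The number of choices seen at a given level. -/
noncomputable def skelB (J : ℕ) (g : Rk) : ℕ :=
  if gd ps J g ∧ 0 < ps J g then 2 ^ bf (sk J (ps J g)) else 1

lemma skel_measurable_pi (w : ℕ → Bool) : Measurable (skelPi w) := by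
  refine measurable_pi_lambda _ fun t => ?_
  have h1 : Measurable fun p : Rk × (ℤ → ℝ) => zp RR t p.1 :=
    (measurable_zp measurable_RR measurable_RR_symm t).comp measurable_fst
  have h3 : ∀ b : Ty, Measurable fun p : Rk × (ℤ → ℝ) =>
      code b (2 * ix (2 ^ bf b) (p.2 t) + cl w b) := by
    intro b
    have h0 : Measurable fun p : Rk × (ℤ → ℝ) => p.2 t :=
      (measurable_pi_apply t).comp measurable_snd
    have h2 : Measurable fun p : Rk × (ℤ → ℝ) => ix (2 ^ bf b) (p.2 t) :=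
      (skel_measurable_ix _).comp h0
    exact (measurable_of_countable fun k => code b (2 * k + cl w b)).comp h2
  have h4 : ∀ b : Ty, MeasurableSet {p : Rk × (ℤ → ℝ) | ty ps (zp RR t p.1) = b} :=
    fun b => h1 (measurableSet_ty b)
  exact skel_meas (a := fun p : Rk × (ℤ → ℝ) => ty ps (zp RR t p.1))
    (F := fun b p => code b (2 * ix (2 ^ bf b) (p.2 t) + cl w b)) h4 h3

lemma skel_pi_sh (w : ℕ → Bool) (g : Rk) (ω : ℤ → ℝ) :
    skelPi w (RR g, sh ω) = sh (skelPi w (g, ω)) := by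
  funext t
  simp only [skelPi, sh_apply, zp_succ]

lemma skel_measurable_b (J : ℕ) : Measurable (skelB J) := by
  classical
  unfold skelB
  refine Measurable.ite ?_ ?_ measurable_const
  · exact (measurableSet_gd J).inter (measurableSet_lt measurable_const (measurable_ps J))
  · exact (measurable_of_countable fun r => 2 ^ bf (sk J r)).comp (measurable_ps J)

lemma skel_b_pos (J : ℕ) (g : Rk) : 0 < skelB J g := by
  unfold skelB
  split_ifs
  · positivity
  · exact one_pos

lemma skel_b_le (J : ℕ) (g : Rk) : skelB J g ≤ 2 ^ FF J := by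
  unfold skelB
  split_ifs with hg
  · exact Nat.pow_le_pow_right (by norm_num) (skel_bt_le (gd_lt hg.1))
  · exact Nat.one_le_two_pow

lemma skel_hv (w : ℕ → Bool) (J : ℕ) (g : Rk) (ω ω' : ℤ → ℝ)
    (e : skelQ (2 * 2 ^ FF J) (skelPi w (g, ω)) = skelQ (2 * 2 ^ FF J) (skelPi w (g, ω'))) :
    ix (skelB J g) (ω 0) = ix (skelB J g) (ω' 0) := by
  unfold skelB
  split_ifs with hg
  · have hty := ty_eq hg.1
    have hK : 2 ^ bf (sk J (ps J g)) ≤ 2 ^ FF J :=
      Nat.pow_le_pow_right (by norm_num) (skel_bt_le (gd_lt hg.1))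
    have e' := congrArg Fin.val e
    simp only [skelQ, skelPi, zp_zero, hty, skel_code_snd] at e'
    have h1 := Cx.ix_lt (b := 2 ^ bf (sk J (ps J g))) (by positivity) (ω 0)
    have h2 := Cx.ix_lt (b := 2 ^ bf (sk J (ps J g))) (by positivity) (ω' 0)
    by_cases ha : sk J (ps J g) = none
    · rw [ha] at h1 h2 ⊢
      simp only [bf, bt, Nat.zero_sub, pow_zero] at h1 h2 ⊢
      omega
    · rw [if_neg ha, if_neg ha] at e'
      have h3 := (cl_lt w _ h1).2
      omega
  · simp only [ix, Nat.mod_one]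

lemma skel_integral (J : ℕ) :
    Real.log 2 * ((∑ r ∈ Finset.Ico 1 (T J), (bf (sk J r) : ℝ)) *
      ((1 - (1 / 2) ^ (J + 1)) / T J)) ≤ ∫ g, Real.log (skelB J g) ∂muR := by
  have hm : ∀ r, MeasurableSet {g | gd ps J g ∧ ps J g = r} := fun r =>
    (measurableSet_gd J).inter (measurable_ps J (measurableSet_singleton r))
  have e : (fun g => Real.log (skelB J g)) = fun g => ∑ r ∈ Finset.Ico 1 (T J),
      {g | gd ps J g ∧ ps J g = r}.indicator (fun _ => Real.log 2 * (bf (sk J r) : ℝ)) g := by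
    funext g
    unfold skelB
    split_ifs with hg
    · rw [Finset.sum_eq_single (ps J g)]
      · rw [indicator_of_mem (by exact ⟨hg.1, rfl⟩)]
        push_cast
        rw [Real.log_pow, mul_comm]
      · intro r _ hr
        exact indicator_of_notMem (fun hh => hr hh.2.symm) _
      · intro hn
        exact absurd (Finset.mem_Ico.2 ⟨hg.2, gd_lt hg.1⟩) hn
    · rw [Finset.sum_eq_zero]
      · simp
      · intro r hr
        refine indicator_of_notMem (fun hh => hg ⟨hh.1, ?_⟩) _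
        have := (Finset.mem_Ico.1 hr).1
        have h2 := hh.2
        omega
  rw [e, integral_finsetSum _ fun r _ => (integrable_const _).indicator (hm r)]
  rw [Finset.sum_mul, Finset.mul_sum]
  refine Finset.sum_le_sum fun r hr => ?_
  rw [integral_indicator_const _ (hm r), smul_eq_mul]
  have h1 := real_gd (J := J) (r := r) (Finset.mem_Ico.1 hr).1 (Finset.mem_Ico.1 hr).2
  have h2 : 0 ≤ Real.log 2 * (bf (sk J r) : ℝ) :=
    mul_nonneg (Real.log_nonneg (by norm_num)) (Nat.cast_nonneg _)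
  calc _ = (1 - (1 / 2) ^ (J + 1)) / T J * (Real.log 2 * (bf (sk J r) : ℝ)) := by ring
    _ ≤ _ := mul_le_mul_of_nonneg_right h1 h2

lemma rk_des {J : ℕ} {g : Rk} (hg : gd ps J g) {c : ℤ → ℕ} {w : ℕ → Bool}
    (hc : ∀ t, c t < 2 ^ bt (ty ps (zp RR t g)) ∧ c t % 2 = cl w (ty ps (zp RR t g))) :
    Des fun t => code (ty ps (zp RR t g)) (c t) := by
  refine ⟨fun t => ty ps (zp RR t g), c, fun _ => rfl, fun n => ?_⟩
  have hJ : J < max J n + 1 := Nat.lt_succ_of_le (le_max_left _ _)
  have hn : n < max J n + 1 := Nat.lt_succ_of_le (le_max_right _ _)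
  obtain ⟨h1, h2⟩ := hg _ hJ
  have h3 := lt_m (max J n + 1)
  have h4 := gd_lt (gd_mono hJ.le hg)
  have b1 := block_end h4 (Or.inl rfl)
  rw [Nat.cast_zero, add_zero] at b1
  refine ⟨max J n + 1, -(ps (max J n + 1) g : ℤ), by omega, by omega, b1,
    block_end h4 (Or.inr rfl), fun s h0 hs => block_mid h4 h0 hs, w, fun s h0 hs => ?_⟩
  rw [← block_mid h4 h0 hs]
  exact hc _

/-- The names whose symbol at time zero is an odd choice at a star of level `i + 1`. -/
def Odd0 (i : ℕ) : Set Om := {y | (y 0).1 = i + 2 ∧ (y 0).2 % 4 = 2}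

lemma measurableSet_Odd0 (i : ℕ) : MeasurableSet (Odd0 i) :=
  measurable_pi_apply (X := fun _ : ℤ => ℕ × ℕ) 0
    (MeasurableSet.of_discrete (s := {a : ℕ × ℕ | a.1 = i + 2 ∧ a.2 % 4 = 2}))

lemma star_pos (i : ℕ) : muR {g | ty ps g = some (i, i)} ≠ 0 := by
  have h1 := T_split i
  have h2 : 2 * T i ≤ NN i * T i :=
    Nat.mul_le_mul_right _ (le_trans (Nat.le_self_pow (Nat.succ_ne_zero i) 2) (NN_ge i))
  have hT := T_pos i
  have hm := m_pos (i + 1)
  have h3 : {g | ps (i + 1) g = m (i + 1) + T i} ⊆ {g | ty ps g = some (i, i)} := fun g hg => by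
    have h : ps (i + 1) g = m (i + 1) + T i := hg
    show ty ps g = some (i, i)
    rw [ty_eq (J := i + 1) (gd_of_pos (by omega) (by omega)), h,
      sk_grid (gr_add (gr_self i) le_rfl) (by omega) (by omega), if_neg (by omega),
      if_neg (by omega)]
  have h4 := measureReal_mono (μ := muR) h3
  rw [mu_level (by omega)] at h4
  have h5 := ww_pos (i + 1)
  intro h0
  rw [Measure.real, h0, ENNReal.toReal_zero] at h4
  linarith

lemma odd_iff (w : ℕ → Bool) (i : ℕ) :
    ((muR.prod PB).map (skelPi w)) (Odd0 i) ≠ 0 ↔ w i = true := by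
  rw [Measure.map_apply (skel_measurable_pi w) (measurableSet_Odd0 i)]
  refine ⟨fun h => ?_, fun h h0 => star_pos (i + 1) ?_⟩
  · obtain ⟨p, h1, h2⟩ := nonempty_of_measure_ne_zero h
    simp only [skelPi, zp_zero] at h1 h2
    generalize ty ps p.1 = a at h1 h2
    generalize ix (2 ^ bf a) (p.2 0) = k at h1 h2
    rcases a with _ | ⟨j, j'⟩
    · simp [code] at h2
    · by_contra hw
      have h3 := skel_code_snd (some (j, j')) (2 * k + cl w (some (j, j')))
      rw [if_neg (Option.some_ne_none _)] at h3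
      have h4 : cl w (some (j, j')) ≠ 0 := by omega
      simp only [code, if_neg (show 2 * k + cl w (some (j, j')) ≠ 0 by omega)] at h1
      obtain rfl : j = i + 1 := by omega
      exact h4 (if_neg fun h => hw h.2.2)
  · have hf : MeasurePreserving Prod.fst (muR.prod PB) muR := measurePreserving_fst
    rw [← hf.measure_preimage (measurableSet_ty _).nullMeasurableSet]
    refine measure_mono_null (fun p hp => ?_) h0
    have hp' : ty ps p.1 = some (i + 1, i + 1) := hp
    have h1 : cl w (some (i + 1, i + 1)) = 1 := if_pos ⟨rfl, Nat.le_add_left _ _, h⟩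
    show (skelPi w p 0).1 = i + 2 ∧ (skelPi w p 0).2 % 4 = 2
    simp only [skelPi, zp_zero, hp', h1, code, if_neg (Nat.succ_ne_zero _), true_and]
    omega

theorem exists_measure (w : ℕ → Bool) : ∃ ν : Measure Om, IsProbabilityMeasure ν ∧ Ergodic sh ν ∧
    (∀ c, c < hh → Ent sh ν c) ∧ NP sh ν ∧ ¬ Mix sh ν ∧
    (∀ A, MeasurableSet A → (∀ y, Des y → y ∈ A) → ν Aᶜ = 0) ∧
    ∀ i, ν (Odd0 i) ≠ 0 ↔ w i = true := by
  have hs := fun J => Cx.skew rk_erg (skel_measurable_pi w) (skel_pi_sh w) (skel_measurable_b J)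
    (skel_b_pos J) (skel_b_le J) (skelQ (2 * 2 ^ FF J)) (skel_measurable_Q _) (skel_hv w J)
  have hπ : MeasurePreserving (skelPi w) (muR.prod PB) ((muR.prod PB).map (skelPi w)) :=
    (skel_measurable_pi w).measurePreserving _
  have hc : ∀ᵐ x ∂(muR.prod PB), skelPi w (Prod.map RR sh x) = sh (skelPi w x) :=
    Eventually.of_forall fun x => skel_pi_sh w x.1 x.2
  refine ⟨(muR.prod PB).map (skelPi w), (hs 0).1, (hs 0).2.1, fun c hc => ?_,
    prod_np.factor prod_mp hπ measurable_sh hc, fun hm => ?_, fun A hA hD => ?_, odd_iff w⟩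
  · obtain ⟨J, hJ⟩ := exists_level hc
    exact (hs J).2.2.mono (hJ.trans (skel_integral J))
  · have hA : MeasurableSet {y : Om | y 0 = (0, 0)} :=
      measurable_pi_apply (X := fun _ : ℤ => ℕ × ℕ) 0 (measurableSet_singleton (0, 0))
    have e : skelPi w ⁻¹' {y : Om | y 0 = (0, 0)} = Prod.fst ⁻¹' {g | ty ps g = none} := by
      ext x
      simp only [mem_preimage, mem_ofPred_eq, skelPi, zp_zero, code_eq_zero]
    have hf : MeasurePreserving Prod.fst (muR.prod PB) muR := measurePreserving_fst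
    have h1 := hm _ hA
    refine rk_return (measurableSet_ty none) ty_none.1 ty_none.2 ?_
    simp only [Measure.real] at h1 ⊢
    rw [← hπ.measure_preimage hA.nullMeasurableSet, e,
      hf.measure_preimage (measurableSet_ty none).nullMeasurableSet] at h1
    refine h1.congr fun n => ?_
    rw [factor_inter prod_mp hπ measurable_sh hc hA, e,
      factor_inter prod_mp hf measurable_RR (Eventually.of_forall fun _ => rfl)
        (measurableSet_ty none)]
  · rw [Measure.map_apply (skel_measurable_pi w) hA.compl]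
    have h1 : ∀ᵐ p ∂(muR.prod PB), ∃ J, gd ps J p.1 :=
      Measure.quasiMeasurePreserving_fst.ae ae_gd
    refine measure_mono_null (fun p hp => ?_) (ae_iff.1 h1)
    rintro ⟨J, hJ⟩
    exact hp (hD _ (rk_des hJ fun t => cl_lt w _ (Cx.ix_lt (by positivity) _)))

open scoped Manifold in
theorem main : ∃ (M : Type) (_ : MetricSpace M) (_ : CompactSpace M) (_ : ConnectedSpace M)
    (_ : ChartedSpace (EuclideanSpace ℝ (Fin 2)) M) (_ : IsManifold (𝓡 2) 1 M)
    (_ : MeasurableSpace M) (_ : BorelSpace M) (f : Diffeomorph (𝓡 2) (𝓡 2) M M 1),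
    0 < Dynamics.coverEntropy f Set.univ ∧
      ¬ Set.Countable {μ : Measure M | PeriodMaximal f μ ∧ ¬ PeriodicBernoulli f μ ∧
        ∀ ν : Measure M, IsProbabilityMeasure ν → Ergodic f ν → ksEntropy f ν ≤ ksEntropy f μ} := by
  obtain ⟨i1, i2, f, r, hr, hi, hs, hd⟩ := exists_torus contDiff_HH
    (fun x y => HH_per_fst y) (fun x y => HH_per_snd x) fun x x' y => HH_slope y
  refine ⟨Tor, inferInstance, inferInstance, inferInstance, i1, i2, inferInstance, inferInstance,
    f, ?_⟩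
  have he : Measurable (f.toEquiv : Tor → Tor) := f.continuous.measurable
  have he' : Measurable (f.toEquiv.symm : Tor → Tor) := f.symm.continuous.measurable
  obtain ⟨D, N, hE, hL, hD, hF⟩ := model (e := f.toEquiv) he he' hr hi hs hd
  have hup : ∀ ν' : Measure Tor, IsProbabilityMeasure ν' → Ergodic f ν' → ksEntropy f ν' ≤ hh := by
    intro ν' h1 h2
    refine ks_le h2.toMeasurePreserving fun c hc => ?_
    by_cases h0 : 0 < c
    · obtain ⟨μ', k1, k2, k3, k4, -⟩ :=
        Cx.pushE hE measurable_sh h2 (hF ν' h1 h2 (Cx.PE_iff.2 ⟨c, h0, hc⟩))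
      refine ent_le_hh k2.toMeasurePreserving ?_ (k4 c hc)
      have : ∀ᵐ y ∂μ', y ∈ N '' D := k3
      filter_upwards [this] with y hy
      obtain ⟨z, hz, rfl⟩ := hy
      exact hL z hz
    · exact (not_lt.1 h0).trans hh_pos.le
  have key : ∀ w : ℕ → Bool, ∃ μ : Measure Tor, (PeriodMaximal f μ ∧ ¬ PeriodicBernoulli f μ ∧
      ∀ ν : Measure Tor, IsProbabilityMeasure ν → Ergodic f ν → ksEntropy f ν ≤ ksEntropy f μ) ∧
      0 < Dynamics.coverEntropy f Set.univ ∧ ∀ i, μ (N ⁻¹' Odd0 i) ≠ 0 ↔ w i = true := by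
    intro w
    obtain ⟨ν, hν, e1, e2, e3, e4, e5, e6⟩ := exists_measure w
    have hND := e5 _ (hE.meas_image hE.dom le_rfl) hD
    obtain ⟨μ, hμ, m1, m2, m3, m4, -⟩ := Cx.pullE hE he e1 hND
    have hae : ∀ᵐ y ∂ν, y ∈ N '' D := hND
    have hae' : ∀ᵐ x ∂μ, x ∈ D := m2
    obtain ⟨x₀, -⟩ := hae'.exists
    have : Nonempty Tor := ⟨x₀⟩
    obtain ⟨β, hβ, hinv⟩ := hE.exists_inv
    have hμD : ∀ A, μ (A ∩ D) = μ A := fun A =>
      measure_congr (by filter_upwards [hae'] with x hx using propext (and_iff_left hx))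
    have hN : MeasurePreserving N μ ν := by
      refine ⟨hE.meas, Measure.ext fun B hB => ?_⟩
      rw [Measure.map_apply hE.meas hB, ← hμD, ← m3 _ ((hE.meas hB).inter hE.dom) inter_subset_right,
        image_preimage_inter]
      exact measure_congr (by filter_upwards [hae] with x hx using propext (and_iff_left hx))
    have hβ' : MeasurePreserving β ν μ := by
      refine ⟨hβ.meas, Measure.ext fun A hA => ?_⟩
      rw [Measure.map_apply hβ.meas hA, ← hμD, ← m3 _ (hA.inter hE.dom) inter_subset_right]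
      refine measure_congr ?_
      filter_upwards [hae] with y hy
      obtain ⟨x, hx, rfl⟩ := hy
      refine propext ?_
      show β (N x) ∈ A ↔ N x ∈ N '' (A ∩ D)
      rw [hinv x hx]
      refine ⟨fun h => ⟨x, ⟨h, hx⟩, rfl⟩, ?_⟩
      rintro ⟨x', hx', e⟩
      exact hE.inj hx'.2 hx e ▸ hx'.1
    have hNP : NP f μ := e3.factor e1.toMeasurePreserving hβ' he
      (by filter_upwards [hae] with y hy using hβ.comm y hy)
    have hMix : ¬ Mix f μ := fun h => e4 (h.factor m1.toMeasurePreserving hN measurable_sh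
      (by filter_upwards [hae'] with x hx using hE.comm x hx))
    have hlo : (hh : EReal) ≤ ksEntropy f μ := by
      refine EReal.le_of_forall_lt_iff_le.1 fun c hc => ?_
      by_contra h
      obtain ⟨c', h1, h2⟩ := exists_between (EReal.coe_lt_coe_iff.1 (not_le.1 h))
      exact absurd ((le_ks (m4 c' (e2 c' h2))).trans_lt hc) (not_lt.2 (EReal.coe_le_coe h1.le))
    have hper := periods_one hNP m1.toMeasurePreserving
    refine ⟨μ, ⟨⟨hμ, m1, lt_of_lt_of_le (by exact_mod_cast hh_pos) hlo, 1, hper,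
      le_antisymm ?_ ?_⟩, not_bernoulli m1.toMeasurePreserving hNP hMix,
      fun ν' h1 h2 => (hup ν' h1 h2).trans hlo⟩,
      coverEntropy_pos m1.toMeasurePreserving (Cx.PE_iff.2 ⟨hh / 2, half_pos hh_pos,
        m4 _ (e2 _ (half_lt_self hh_pos))⟩), fun i => ?_⟩
    · exact le_iSup₂_of_le μ hμ (le_iSup₂_of_le m1 hper le_rfl)
    · exact iSup₂_le fun ν' h1 => iSup₂_le fun h2 _ => (hup ν' h1 h2).trans hlo
    · rw [hN.measure_preimage (measurableSet_Odd0 i).nullMeasurableSet]
      exact e6 i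
  choose μ k1 k2 k3 using key
  refine ⟨k2 fun _ => true, fun hc => ?_⟩
  have hinj : Function.Injective μ := fun w w' e => funext fun i => by
    rw [Bool.eq_iff_iff, ← k3, ← k3, e]
  have h1 : (univ : Set (ℕ → Bool)).Countable :=
    (hc.preimage_of_injOn hinj.injOn).mono fun w _ => k1 w
  obtain ⟨u, hu⟩ := h1.exists_eq_range univ_nonempty
  obtain ⟨n, hn⟩ : (fun n => !u n n) ∈ range u := hu ▸ mem_univ _
  have h2 := congrFun hn n
  simp at h2

end Pool.Agent.P.MP_1672e2_an.Cq.Un
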