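import Pool.Agent.P.MP_1672e2_an.Cb.Orb

/-! The symbolic model on the torus. -/

set_option autoImplicit false

namespace Pool.Agent.P.MP_1672e2_an.Cq.Un

open MeasureTheory Set Filter Topology

section

variable {x : ℤ → ℝ} {t : ℤ}

lemma glob_Xi {a b : ℝ} (h : b ≤ 0 ∨ 1 ≤ b) : Xi (a, b) = 0 := by
  refine Xi_eq_zero (not_act ?_)
  rcases h with h | h
  · exact Or.inr (Or.inr (Or.inl (by show b ≤ _; linarith)))
  · exact Or.inr (Or.inr (Or.inr (by show _ ≤ b; linarith)))

lemma GOrb.fwd0 (h : GOrb x) (ht : x (t - 1) ≤ 16) :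
    x (t + 1) = HH (x (t - 1), x t) ∧ x (t + 1) ≤ 16 := by
  obtain ⟨_, _, n, hn⟩ := h t
  obtain ⟨h1, h2, _⟩ := h (t + 1)
  have h3 := (h (t - 1)).1
  have h4 := abs_le.1 (abs_al (x := x (t - 1)) (abs_le.2 ⟨h3, ht⟩))
  have h5 := GG_bound (x t)
  have h6 := abs_le.1 (abs_Xi (x (t - 1), x t))
  have h7 : HH (x (t - 1), x t) = GG (x t) - al (x (t - 1)) + Xi (x (t - 1), x t) := rfl
  have h8 : (-1 : ℝ) < n := by linarith [h4.1, h5.2, h6.2]
  have h9 : (n : ℝ) < 1 := by linarith [h4.2, h5.1, h6.1]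
  have h10 : n = 0 := by
    have a : (-1 : ℤ) < n := by exact_mod_cast h8
    have b : n < (1 : ℤ) := by exact_mod_cast h9
    omega
  rw [h10] at hn
  simp only [Int.cast_zero, mul_zero, add_zero] at hn
  exact ⟨hn, by linarith [h4.1, h5.2, h6.2]⟩

/-- The step when the nonlinearity is saturated. -/
lemma glob_sat (h : GOrb x) (ht : x (t - 1) ≤ 16) (h' : av * x t ≤ -10 ∨ 1 ≤ x t) :
    x (t + 1) = -9 - al (x (t - 1)) ∧ x (t + 1) ≤ -7 / 2 := by
  have h1 := (h.fwd0 ht).1
  have h4 := abs_le.1 (abs_al (x := x (t - 1)) (abs_le.2 ⟨(h (t - 1)).1, ht⟩))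
  have h7 : HH (x (t - 1), x t) = GG (x t) - al (x (t - 1)) + Xi (x (t - 1), x t) := rfl
  have h2 : GG (x t) = -9 := h'.elim GG_left GG_right
  have h3 : Xi (x (t - 1), x t) = 0 :=
    glob_Xi (h'.elim (fun a => Or.inl (glob_neg a).le) Or.inr)
  constructor
  · linarith
  · linarith [h4.1]

/-- The step on the left of the saddle. -/
lemma glob_lin (h : GOrb x) (ht : x (t - 1) ≤ 16) (h1 : -10 ≤ av * x t) (h2 : x t ≤ 0) :
    x (t + 1) + al (x (t - 1)) ≤ 3 * x t := by
  have h3 := (h.fwd0 ht).1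
  have h7 : HH (x (t - 1), x t) = GG (x t) - al (x (t - 1)) + Xi (x (t - 1), x t) := rfl
  have h4 := GG_neg h1 h2
  have h5 : Xi (x (t - 1), x t) = 0 := glob_Xi (Or.inl h2)
  linarith

lemma glob_dbl (h : GOrb x) (ht : x (t - 1) ≤ 16) (h1 : -10 ≤ av * x t) (h2 : x t ≤ 0)
    (h3 : x t ≤ x (t - 1)) : x (t + 1) ≤ 2 * x t := by
  have h4 := glob_lin h ht h1 h2
  have h5 := glob_al_mono h3
  have h6 := le_al h2
  linarith

lemma GOrb.fwd1 (h : GOrb x) (ht : (x (t - 1), x t) ∈ N1) : (x t, x (t + 1)) ∈ N1 := by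
  obtain ⟨h1, h2, h3⟩ := ht
  simp only at h1 h2 h3
  by_cases h4 : av * x t ≤ -10
  · have h5 := (glob_sat h h1 (Or.inl h4)).2
    exact ⟨by show x t ≤ 16; linarith, by show x (t + 1) < 0; linarith, Or.inr (glob_av h5)⟩
  · have h5 := glob_dbl h h1 (not_le.1 h4).le h2.le (h3.resolve_right h4)
    exact ⟨by show x t ≤ 16; linarith, by show x (t + 1) < 0; linarith,
      Or.inl (by show x (t + 1) ≤ x t; linarith)⟩

lemma GOrb.fwd2 (h : GOrb x) (ht : (x (t - 1), x t) ∈ N2) : (x t, x (t + 1)) ∈ N2 := by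
  obtain ⟨h1, h2⟩ := ht
  simp only at h1 h2
  have h3 := glob_neg h2
  exact ⟨by show x t ≤ 16; linarith, glob_av (glob_sat h h1 (Or.inl h2)).2⟩

lemma glob_per (h : GOrb x) (h0 : ∀ t, x (t + 1) ≤ 16 → x (t - 1) ≤ 16)
    (H : ∀ s, 16 < x s ∨ x s ≤ -7 / 2) (t : ℤ) : x (t + 2) = x t := by
  have hsat : ∀ s, av * x s ≤ -10 ∨ 1 ≤ x s := fun s =>
    (H s).elim (fun a => Or.inr (by linarith)) fun a => Or.inl (glob_av a)
  have hup : ∀ s, 16 < x s → 16 < x (s + 2) := by
    intro s hs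
    by_contra hc
    have := h0 (s + 1) (by rw [show s + 1 + 1 = s + 2 by ring]; exact not_lt.1 hc)
    rw [add_sub_cancel_right] at this
    linarith
  have hlow : ∀ s, x s ≤ 16 → x (s + 2) = -15 / 2 - x s / 4 ∧ x (s + 2) ≤ 16 := by
    intro s hs
    have h1 := glob_sat (t := s + 1) h (by rw [add_sub_cancel_right]; exact hs) (hsat _)
    rw [add_sub_cancel_right, show s + 1 + 1 = s + 2 by ring] at h1
    have h2 : x s ≤ -7 / 2 := (H s).resolve_left (not_lt.2 hs)
    rw [al_neg (by linarith)] at h1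
    exact ⟨by linarith [h1.1], by linarith [h1.2]⟩
  have hdown : ∀ s, x (s + 2) ≤ 16 → x s ≤ 16 := fun s hs =>
    not_lt.1 fun hc => absurd (hup s hc) (not_lt.2 hs)
  have hbig : ∀ s, 16 < x s → x (s + 2) = 31 - al (x s) := by
    intro s hs
    obtain ⟨_, _, n, hn⟩ := h (s + 1)
    rw [add_sub_cancel_right, show s + 1 + 1 = s + 2 by ring] at hn
    have h7 : HH (x s, x (s + 1)) = GG (x (s + 1)) - al (x s) + Xi (x s, x (s + 1)) := rfl
    have h2 : GG (x (s + 1)) = -9 := (hsat _).elim GG_left GG_right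
    have h3 : Xi (x s, x (s + 1)) = 0 :=
      Xi_eq_zero (not_act (Or.inr (Or.inl (by show 1 ≤ x s; linarith))))
    have h4 := al_pos (x := x s) (by linarith)
    have h5 := Psi_nonneg ((x s - 16) / 7)
    have h6 := Psi_le_one ((x s - 16) / 7)
    have h8 := hup s hs
    have h9 := (h (s + 2)).2.1
    have h10 := (h s).2.1
    have a1 : (0 : ℝ) < n := by linarith
    have a2 : (n : ℝ) < 2 := by linarith
    have a3 : n = 1 := by
      have a : (0 : ℤ) < n := by exact_mod_cast a1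
      have b : n < (2 : ℤ) := by exact_mod_cast a2
      omega
    rw [a3] at hn
    simp only [Int.cast_one, mul_one] at hn
    linarith
  have hlt : ∀ s, 16 < x s → x s ≤ 39 / 2 := by
    intro s hs
    by_contra hc
    have h1 := glob_al_mono (not_le.1 hc).le
    rw [glob_al_aff (by norm_num) le_rfl] at h1
    have h2 := hbig s hs
    have h3 := hup s hs
    linarith
  have hgt : ∀ s, 16 < x s → 87 / 5 ≤ x s := by
    intro s hs
    by_contra hc
    have h1 := glob_al_mono (not_le.1 hc).le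
    rw [glob_al_aff le_rfl (by norm_num)] at h1
    have h2 := hbig s hs
    have h3 := hlt _ (hup s hs)
    linarith
  have hB : ∀ s, |x (s + 2) - x s| ≤ 40 := fun s => by
    have a := h s
    have b := h (s + 2)
    exact abs_le.2 ⟨by linarith [a.2.1, b.1], by linarith [a.1, b.2.1]⟩
  by_cases ht : 16 < x t
  · have := glob_zero (fun s => if 16 < x s then x (s + 2) - x s else 0) 2 40 (fun s => by
      split_ifs
      · exact hB s
      · norm_num) (fun s => by
      by_cases hs : 16 < x s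
      · have hs' := hup s hs
        simp only [if_pos hs, if_pos hs']
        have h1 := hbig s hs
        have h2 := hbig _ hs'
        rw [glob_al_aff (hgt s hs) (hlt s hs)] at h1
        rw [glob_al_aff (hgt _ hs') (hlt _ hs')] at h2
        have e : x (s + 2 + 2) - x (s + 2) = -(71 / 14) * (x (s + 2) - x s) := by linarith
        rw [e, abs_mul, abs_neg, abs_of_pos (by norm_num : (0 : ℝ) < 71 / 14)]
        nlinarith [abs_nonneg (x (s + 2) - x s)]
      · simp only [if_neg hs, abs_zero, mul_zero]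
        exact abs_nonneg _) t
    simp only [if_pos ht] at this
    linarith
  · have := glob_zero (fun s => if 16 < x s then 0 else x (s + 2) - x s) (-2) 40 (fun s => by
      split_ifs
      · norm_num
      · exact hB s) (fun s => by
      by_cases hs : 16 < x s
      · simp only [if_pos hs, abs_zero, mul_zero]
        exact abs_nonneg _
      · have e0 : s + -2 + 2 = s := by ring
        have hs' : x (s + -2) ≤ 16 := hdown _ (by rw [e0]; exact not_lt.1 hs)
        simp only [if_neg hs, if_neg (not_lt.2 hs')]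
        have h1 := (hlow s (not_lt.1 hs)).1
        have h2 := (hlow _ hs').1
        rw [e0] at h2 ⊢
        have e : x s - x (s + -2) = -4 * (x (s + 2) - x s) := by linarith
        rw [e, abs_mul, abs_neg, abs_of_pos (by norm_num : (0 : ℝ) < 4)]
        nlinarith [abs_nonneg (x (s + 2) - x s)]) t
    simp only [if_neg ht] at this
    linarith

lemma glob_orb (h : GOrb x) (h' : ∀ t, 0 ≤ x t ∧ x t ≤ 1) : Orb x := by
  intro t
  refine ⟨(h' t).1, (h' t).2, ?_⟩
  have a := h' (t - 1)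
  have h1 := (h.fwd0 (t := t) (by linarith [a.2])).1
  have h7 : HH (x (t - 1), x t) = GG (x t) - al (x (t - 1)) + Xi (x (t - 1), x t) := rfl
  rw [al_mid (abs_le.2 ⟨by linarith [a.1], a.2⟩)] at h7
  linarith

/-- Orbits that do not cross the boundaries of the trapping regions are periodic or in the core. -/
theorem GOrb.cases (h : GOrb x) (h0 : ∀ t, x (t + 1) ≤ 16 → x (t - 1) ≤ 16)
    (h1 : ∀ t, (x t, x (t + 1)) ∈ N1 → (x (t - 1), x t) ∈ N1)
    (h2 : ∀ t, (x t, x (t + 1)) ∈ N2 → (x (t - 1), x t) ∈ N2) :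
    (∀ t, x (t + 2) = x t) ∨ Orb x := by
  have hB : ∀ s, |x s| ≤ 24 := fun s =>
    abs_le.2 ⟨by linarith [(h s).1], (h s).2.1.le⟩
  by_cases hbig : ∃ s, 16 < x s
  · obtain ⟨s0, hs0⟩ := hbig
    have hiff : ∀ t, 16 < x (t + 1) ↔ 16 < x (t - 1) := fun t =>
      ⟨fun a => not_le.1 fun b => absurd (h.fwd0 b).2 (not_le.2 a),
        fun a => not_le.1 fun b => absurd (h0 t b) (not_le.2 a)⟩
    have hQ : ∀ t, 16 < x (t - 1) ∨ 16 < x t := fun t =>
      glob_const (fun t => 16 < x (t - 1) ∨ 16 < x t)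
        (fun t => by
          show (16 < x (t + 1 - 1) ∨ 16 < x (t + 1)) ↔ _
          rw [add_sub_cancel_right, hiff, or_comm]) s0 t (Or.inr hs0)
    refine Or.inl (glob_per h h0 fun s => ?_)
    by_cases hs : 16 < x s
    · exact Or.inl hs
    · right
      have a := (hQ s).resolve_right hs
      have b := h0 (s - 1) (by rw [sub_add_cancel]; exact not_lt.1 hs)
      have c := (glob_sat (t := s - 1) h b (Or.inr (by linarith))).2
      rwa [sub_add_cancel] at c
  push Not at hbig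
  by_cases hN2 : ∃ s, (x (s - 1), x s) ∈ N2
  · obtain ⟨s0, hs0⟩ := hN2
    have hQ : ∀ t, (x (t - 1), x t) ∈ N2 := fun t =>
      glob_const (fun t => (x (t - 1), x t) ∈ N2)
        (fun t => by
          show (x (t + 1 - 1), x (t + 1)) ∈ N2 ↔ _
          rw [add_sub_cancel_right]
          exact ⟨h2 t, h.fwd2⟩) s0 t hs0
    refine Or.inl (glob_per h h0 fun s => Or.inr ?_)
    have c := (glob_sat (t := s - 1) h (hbig _) (Or.inl (hQ (s - 1)).2)).2
    rwa [sub_add_cancel] at c
  have hav : ∀ s, -10 < av * x s := fun s =>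
    not_le.1 fun hc => hN2 ⟨s, hbig _, hc⟩
  by_cases hN1 : ∃ s, (x (s - 1), x s) ∈ N1
  · exfalso
    obtain ⟨s0, hs0⟩ := hN1
    have hQ : ∀ t, (x (t - 1), x t) ∈ N1 := fun t =>
      glob_const (fun t => (x (t - 1), x t) ∈ N1)
        (fun t => by
          show (x (t + 1 - 1), x (t + 1)) ∈ N1 ↔ _
          rw [add_sub_cancel_right]
          exact ⟨h1 t, h.fwd1⟩) s0 t hs0
    have hneg : ∀ s, x s < 0 := fun s => (hQ s).2.1
    have := glob_zero x 1 24 hB (fun s => by
      have a : x s ≤ x (s - 1) := (hQ s).2.2.resolve_right (not_le.2 (hav s))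
      have b := glob_dbl h (hbig _) (hav s).le (hneg s).le a
      rw [abs_of_neg (hneg s), abs_of_neg (hneg _)]
      linarith) 0
    exact (hneg 0).ne this
  have hdec : ∀ s, x s < 0 → x (s - 1) < x s := fun s hs =>
    not_le.1 fun hc => hN1 ⟨s, hbig _, hs, Or.inl hc⟩
  have hpos : ∀ s, 0 ≤ x s := by
    intro s
    by_contra hc
    have hc := not_le.1 hc
    have := glob_zero (fun s => if x (s + 1) < 0 then x s else 0) (-1) 24 (fun s => by
      split_ifs
      · exact hB s
      · norm_num) (fun s => by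
      by_cases hs : x (s + 1) < 0
      · have a := hdec _ hs
        rw [add_sub_cancel_right] at a
        have a' : x s < 0 := a.trans hs
        have b := hdec _ a'
        have e0 : s + -1 + 1 = s := by ring
        have e1 : s + -1 = s - 1 := by ring
        simp only [if_pos hs, e0, if_pos a']
        rw [e1]
        have c := glob_lin h (hbig (s - 1)) (hav s).le a'.le
        have d : -1 ≤ x (s - 1) := by
          have := hav (s - 1)
          have := av_ge
          nlinarith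
        rw [al_mid (abs_le.2 ⟨d, by linarith⟩)] at c
        rw [abs_of_neg a', abs_of_neg (b.trans a')]
        linarith
      · simp only [if_neg hs, abs_zero, mul_zero]
        exact abs_nonneg _) (s - 1)
    simp only [sub_add_cancel, if_pos hc] at this
    have := hdec s hc
    linarith
  refine Or.inr (glob_orb h fun s => ⟨hpos s, ?_⟩)
  by_contra hc
  have a := (glob_sat (t := s) h (hbig _) (Or.inr (not_le.1 hc).le)).2
  have b := hpos (s + 1)
  linarith

lemma Orb.gorb (h : Orb x) : GOrb x := by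
  intro t
  obtain ⟨h1, h2, h3⟩ := h t
  obtain ⟨h4, h5, _⟩ := h (t - 1)
  refine ⟨by linarith, by linarith, 0, ?_⟩
  have h7 : HH (x (t - 1), x t) = GG (x t) - al (x (t - 1)) + Xi (x (t - 1), x t) := rfl
  rw [al_mid (abs_le.2 ⟨by linarith, h5⟩)] at h7
  simp only [Int.cast_zero, mul_zero, add_zero]
  linarith

lemma GOrb.orb (h : GOrb x) (h' : ∀ t, 0 ≤ x t ∧ x t ≤ 1) : Orb x := glob_orb h h'

end

section

variable {M : Type*} {e : M ≃ M} {r : M → ℝ × ℝ}

lemma model_r (hd : ∀ z, (r (e z)).1 = (r z).2 ∧ ∃ n : ℤ, (r (e z)).2 = HH (r z) + 40 * n)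
    (z : M) (t : ℤ) : r (zp e t z) = (modelX e r z (t - 1), modelX e r z t) := by
  refine Prod.ext ?_ rfl
  have h := (hd (zp e (t - 1) z)).1
  rw [← zp_succ', sub_add_cancel] at h
  exact h

lemma model_gorb (hs : range r = Ico (-16) 24 ×ˢ Ico (-16) 24)
    (hd : ∀ z, (r (e z)).1 = (r z).2 ∧ ∃ n : ℤ, (r (e z)).2 = HH (r z) + 40 * n) (z : M) :
    GOrb (modelX e r z) := by
  intro t
  have h1 : r (zp e t z) ∈ Ico (-16 : ℝ) 24 ×ˢ Ico (-16 : ℝ) 24 := hs ▸ mem_range_self _
  obtain ⟨n, hn⟩ := (hd (zp e t z)).2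
  refine ⟨h1.2.1, h1.2.2, n, ?_⟩
  rw [← zp_succ', model_r hd z t] at hn
  exact hn

lemma model_per (hi : Function.Injective r)
    (hd : ∀ z, (r (e z)).1 = (r z).2 ∧ ∃ n : ℤ, (r (e z)).2 = HH (r z) + 40 * n) {z : M}
    (h : ∀ t, modelX e r z (t + 2) = modelX e r z t) : e^[2] z = z := by
  apply hi
  have h1 := model_r hd z ((2 : ℕ) : ℤ)
  have h2 := model_r hd z 0
  rw [zp_natCast] at h1
  rw [zp_zero] at h2
  rw [h1, h2, ← h (0 - 1), ← h 0]
  norm_num

lemma model_onto (hi : Function.Injective r) (hs : range r = Ico (-16) 24 ×ˢ Ico (-16) 24)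
    (hd : ∀ z, (r (e z)).1 = (r z).2 ∧ ∃ n : ℤ, (r (e z)).2 = HH (r z) + 40 * n) {x : ℤ → ℝ}
    (hx : GOrb x) : ∃ z, modelX e r z = x := by
  have h1 : ∀ t, ∃ z, r z = (x (t - 1), x t) := fun t => by
    have : (x (t - 1), x t) ∈ range r := by
      rw [hs]
      exact ⟨⟨(hx (t - 1)).1, (hx (t - 1)).2.1⟩, (hx t).1, (hx t).2.1⟩
    exact this
  choose Z hZ using h1
  have h2 : ∀ t, e (Z t) = Z (t + 1) := fun t => by
    apply hi
    obtain ⟨h3, n, h4⟩ := hd (Z t)
    obtain ⟨n', h5⟩ := (hx t).2.2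
    have h6 : r (e (Z t)) ∈ Ico (-16 : ℝ) 24 ×ˢ Ico (-16 : ℝ) 24 := hs ▸ mem_range_self _
    have h7 := h6.2.1
    have h8 := h6.2.2
    have h9 := (hx (t + 1)).1
    have h10 := (hx (t + 1)).2.1
    rw [hZ t] at h3 h4
    have h11 : n < n' + 1 := by
      have : (n : ℝ) < n' + 1 := by linarith
      exact_mod_cast this
    have h12 : n' < n + 1 := by
      have : (n' : ℝ) < n + 1 := by linarith
      exact_mod_cast this
    have h13 : n = n' := by omega
    rw [hZ (t + 1), add_sub_cancel_right]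
    refine Prod.ext h3 ?_
    rw [h4, h13]
    exact h5.symm
  have h3 : ∀ t, zp e t (Z 0) = Z t := fun t => by
    induction t using Int.induction_on with
    | zero => simp
    | succ k ih => rw [zp_succ', ih, h2]
    | pred k ih =>
      apply e.injective
      rw [← zp_succ', h2, sub_add_cancel, ih]
  refine ⟨Z 0, funext fun t => ?_⟩
  unfold modelX
  rw [h3, hZ]

end

lemma model_ae {M : Type*} [MeasurableSpace M] {e : M ≃ M} (he' : Measurable e.symm)
    {r : M → ℝ × ℝ} (hr : Measurable r) (hs : range r = Ico (-16) 24 ×ˢ Ico (-16) 24)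
    (hd : ∀ z, (r (e z)).1 = (r z).2 ∧ ∃ n : ℤ, (r (e z)).2 = HH (r z) + 40 * n)
    {ν : Measure M} [IsProbabilityMeasure ν] (hν : MeasurePreserving e ν ν) :
    ∀ᵐ z ∂ν, (∀ t, modelX e r z (t + 2) = modelX e r z t) ∨ Orb (modelX e r z) := by
  have hone : ∀ {Q : Set (ℝ × ℝ)}, MeasurableSet Q →
      (∀ x, GOrb x → (x (0 - 1), x 0) ∈ Q → (x 0, x (0 + 1)) ∈ Q) →
      ∀ᵐ z ∂ν, ∀ t, (modelX e r z t, modelX e r z (t + 1)) ∈ Q →
        (modelX e r z (t - 1), modelX e r z t) ∈ Q := by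
    intro Q hQ h
    have h1 := ae_no_cross hν he' (hr hQ) 1 fun z hz => by
      have h2 := model_r hd z 0
      rw [zp_zero] at h2
      rw [mem_preimage, h2] at hz
      rw [mem_preimage, model_r hd]
      simpa using h _ (model_gorb hs hd z) hz
    filter_upwards [h1] with z hz t ht
    have h2 := hz t
    rw [mem_preimage, mem_preimage, model_r hd, model_r hd] at h2
    exact h2 (by simpa using ht)
  have h0 := ae_no_cross hν he' (A := {z | (r z).1 ≤ 16})
    (measurableSet_le hr.fst measurable_const) 2 fun z hz => by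
      have h2 := model_r hd z 0
      rw [zp_zero] at h2
      have h3 : (r z).1 ≤ 16 := hz
      rw [h2] at h3
      have h4 := ((model_gorb hs hd z).fwd0 (t := 0) h3).2
      show (r (zp e ((2 : ℕ) : ℤ) z)).1 ≤ 16
      rw [model_r hd]
      simpa using h4
  filter_upwards [h0, hone model_meas_N1 fun x hx => hx.fwd1,
    hone model_meas_N2 fun x hx => hx.fwd2] with z hz0 hz1 hz2
  refine (model_gorb hs hd z).cases (fun t ht => ?_) hz1 hz2
  have h2 : (r (zp e (t + (2 : ℕ)) z)).1 ≤ 16 → (r (zp e t z)).1 ≤ 16 := hz0 t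
  rw [model_r hd, model_r hd, show t + ((2 : ℕ) : ℤ) - 1 = t + 1 by push_cast; ring] at h2
  exact h2 ht

theorem model {M : Type*} [MeasurableSpace M] [StandardBorelSpace M] {e : M ≃ M}
    (he : Measurable e) (he' : Measurable e.symm) {r : M → ℝ × ℝ} (hr : Measurable r)
    (hi : Function.Injective r) (hs : range r = Ico (-16) 24 ×ˢ Ico (-16) 24)
    (hd : ∀ z, (r (e z)).1 = (r z).2 ∧ ∃ n : ℤ, (r (e z)).2 = HH (r z) + 40 * n) :
    ∃ (D : Set M) (N : M → Om), Emb e sh D N ∧ (∀ z ∈ D, Lang (N z)) ∧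
      (∀ y, Des y → y ∈ N '' D) ∧
      ∀ ν : Measure M, IsProbabilityMeasure ν → Ergodic e ν → PE e ν → ν Dᶜ = 0 := by
  have hX : ∀ t, Measurable fun z => modelX e r z t := fun t =>
    hr.snd.comp (measurable_zp he he' t)
  have hB : MeasurableSet {z | 1 / 4 ≤ (r z).2} := measurableSet_le measurable_const hr.snd
  have hO : ∀ z, (∀ t, 0 ≤ modelX e r z t ∧ modelX e r z t ≤ 1) → Orb (modelX e r z) :=
    fun z hz => (model_gorb hs hd z).orb hz
  refine ⟨{z | ∀ t, 0 ≤ modelX e r z t ∧ modelX e r z t ≤ 1} ∩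
    {z | Recur e {z | 1 / 4 ≤ (r z).2} z}, fun z => nm (modelX e r z), ⟨?_, ?_, ?_, ?_, ?_⟩,
    fun z hz => lang (hO z hz.1) hz.2, fun y hy => ?_, fun ν hν hE hP => ?_⟩
  · exact measurable_pi_lambda _ fun t => measurable_sym.comp ((hX (t - 1)).prodMk (hX t))
  · refine MeasurableSet.inter ?_ (measurableSet_Recur he he' hB)
    simp only [ofPred_forall]
    exact MeasurableSet.iInter fun t => (measurableSet_le measurable_const (hX t)).inter
      (measurableSet_le (hX t) measurable_const)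
  · intro z
    refine and_congr ⟨fun h t => ?_, fun h t => ?_⟩ Recur_apply
    · have := h (t - 1)
      rwa [model_apply, sub_add_cancel] at this
    · rw [model_apply]
      exact h _
  · intro z hz z' hz' h
    have h1 := nm_inj (hO z hz.1) hz.2 (hO z' hz'.1) hz'.2 h
    have h2 := model_r hd z 0
    have h3 := model_r hd z' 0
    rw [zp_zero] at h2 h3
    apply hi
    rw [h2, h3, h1]
  · intro z _
    funext t
    simp only [nm, sh_apply, model_apply, sub_add_cancel, add_sub_cancel_right]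
  · obtain ⟨x, h1, h2, rfl⟩ := exists_orb hy
    obtain ⟨z, rfl⟩ := model_onto hi hs hd h1.gorb
    exact ⟨z, ⟨fun t => ⟨(h1 t).1, (h1 t).2.1⟩, h2⟩, rfl⟩
  · have h1 := model_ae he' hr hs hd hE.toMeasurePreserving
    have h2 := measure_eq_zero_iff_ae_notMem.1 (PE.aper hE hP)
    have h3 : ∀ᵐ z ∂ν, Orb (modelX e r z) ∧ ¬ ∀ t, modelX e r z (t + 2) = modelX e r z t := by
      filter_upwards [h1, h2] with z hz1 hz2
      have h4 : ¬ ∀ t, modelX e r z (t + 2) = modelX e r z t := fun h =>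
        hz2 ⟨2, by norm_num, model_per hi hd h⟩
      exact ⟨hz1.resolve_left h4, h4⟩
    have h4 : ν {z | 1 / 4 ≤ (r z).2} ≠ 0 := by
      intro h0
      have h5 : ∀ᵐ z ∂ν, ∀ t : ℤ, zp e t z ∉ {z | 1 / 4 ≤ (r z).2} := by
        rw [ae_all_iff]
        intro t
        refine (measure_eq_zero_iff_ae_notMem (s := zp e t ⁻¹' {z | 1 / 4 ≤ (r z).2})).1 ?_
        rw [(measurePreserving_zp he' hE.toMeasurePreserving t).measure_preimage
          hB.nullMeasurableSet, h0]
      obtain ⟨z, ⟨h6, h7⟩, h8⟩ := (h3.and h5).exists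
      have h9 := h6.trivial fun t => not_le.1 (h8 t)
      exact h7 fun t => by rw [h9, h9]
    have h5 : ∀ᵐ z ∂ν, z ∈ {z | Recur e {z | 1 / 4 ≤ (r z).2} z} := ae_recur hE he' hB h4
    refine mem_ae_iff.1 ?_
    filter_upwards [h3, h5] with z hz hz'
    exact ⟨fun t => ⟨(hz.1 t).1, (hz.1 t).2.1⟩, hz'⟩

end Pool.Agent.P.MP_1672e2_an.Cq.Un
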